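import Mathlib

namespace Pool.Agent.H159Z.NI

open Real

/-- signed power `sign x * |x| ^ (p - 1)` -/
noncomputable def sp (p x : ℝ) : ℝ := |x| ^ (p - 2) * x

lemma sp_of_nonneg {p x : ℝ} (hp : 1 < p) (hx : 0 ≤ x) : sp p x = x ^ (p - 1) := by
  unfold sp
  rcases hx.eq_or_lt with rfl | hx
  · rw [zero_rpow (by linarith : p - 1 ≠ 0)]; simp
  · rw [abs_of_pos hx, show p - 1 = (p - 2) + 1 by ring, rpow_add_one hx.ne']

lemma sp_neg (p x : ℝ) : sp p (-x) = -sp p x := by simp [sp]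

lemma abs_sp {p : ℝ} (hp : 1 < p) (x : ℝ) : |sp p x| = |x| ^ (p - 1) := by
  rcases le_total 0 x with h | h
  · rw [sp_of_nonneg hp h, abs_of_nonneg h, abs_of_nonneg (rpow_nonneg h _)]
  · have : sp p x = -sp p (-x) := by rw [sp_neg, neg_neg]
    rw [this, abs_neg, sp_of_nonneg hp (by linarith), abs_of_nonpos h,
      abs_of_nonneg (rpow_nonneg (by linarith) _)]

lemma rpow_pred_mul {p x : ℝ} (hp : 1 < p) (hx : 0 ≤ x) : x ^ (p - 1) * x = x ^ p := by
  rcases hx.eq_or_lt with rfl | hx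
  · rw [zero_rpow (by linarith : p ≠ 0)]; simp
  · rw [← rpow_add_one hx.ne']; congr 1; ring

lemma sp_mul_self {p : ℝ} (hp : 1 < p) (x : ℝ) : sp p x * x = |x| ^ p := by
  rcases le_total 0 x with h | h
  · rw [sp_of_nonneg hp h, abs_of_nonneg h, rpow_pred_mul hp h]
  · have : sp p x = -sp p (-x) := by rw [sp_neg, neg_neg]
    rw [this, sp_of_nonneg hp (by linarith), abs_of_nonpos h, ← rpow_pred_mul hp (by linarith)]
    ring

lemma sp_mul {p c : ℝ} (hp : 1 < p) (hc : 0 ≤ c) (x : ℝ) :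
    sp p (c * x) = c ^ (p - 1) * sp p x := by
  rw [← sp_of_nonneg hp hc]
  unfold sp
  rw [abs_mul, mul_rpow (abs_nonneg _) (abs_nonneg _)]
  ring

lemma abs_sp_mul_le {p : ℝ} (hp : 1 < p) (x y : ℝ) : |sp p x * y| ≤ |x| ^ p + |y| ^ p := by
  rw [abs_mul, abs_sp hp]
  have h1 := rpow_nonneg (abs_nonneg x) p
  have h2 := rpow_nonneg (abs_nonneg y) p
  rcases le_total |y| |x| with h | h
  · have : |x| ^ (p - 1) * |y| ≤ |x| ^ (p - 1) * |x| :=
      mul_le_mul_of_nonneg_left h (rpow_nonneg (abs_nonneg x) _)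
    rw [rpow_pred_mul hp (abs_nonneg x)] at this
    linarith
  · have : |x| ^ (p - 1) * |y| ≤ |y| ^ (p - 1) * |y| :=
      mul_le_mul_of_nonneg_right (rpow_le_rpow (abs_nonneg x) h (by linarith)) (abs_nonneg y)
    rw [rpow_pred_mul hp (abs_nonneg y)] at this
    linarith

/-- tangent line inequality -/
lemma tangent {r a b : ℝ} (hr : 1 ≤ r) (ha : 0 < a) (hb : 0 ≤ b) :
    a ^ r + r * a ^ (r - 1) * (b - a) ≤ b ^ r := by
  have h := one_add_mul_self_le_rpow_one_add (s := b / a - 1)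
    (by have := div_nonneg hb ha.le; linarith) hr
  rw [show 1 + (b / a - 1) = b / a by ring, div_rpow hb ha.le] at h
  have hpos := rpow_pos_of_pos ha r
  rw [le_div_iff₀ hpos] at h
  have e : a ^ (r - 1) = a ^ r / a := rpow_sub_one ha.ne' r
  rw [e]
  have : (1 + r * (b / a - 1)) * a ^ r = a ^ r + r * (a ^ r / a) * (b - a) := by
    field_simp
  linarith

lemma tangent_abs {r : ℝ} (hr : 1 ≤ r) (u : ℝ) : 1 + r * (u - 1) ≤ |u| ^ r := by
  have h := tangent hr one_pos (abs_nonneg u)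
  simp only [one_rpow, mul_one] at h
  have : r * (u - 1) ≤ r * (|u| - 1) :=
    mul_le_mul_of_nonneg_left (by linarith [le_abs_self u]) (by linarith)
  linarith

/-- quadratic tangent inequality -/
lemma tangent2 {r a b : ℝ} (hr : 2 ≤ r) (ha : 0 < a) (hb : 0 ≤ b) :
    a ^ r + r * a ^ (r - 1) * (b - a) + r / 2 * a ^ (r - 2) * (b - a) ^ 2 ≤ b ^ r := by
  have h := tangent (r := r / 2) (a := a ^ 2) (b := b ^ 2) (by linarith) (by positivity)
    (by positivity)
  have e1 : (a ^ 2) ^ (r / 2) = a ^ r := by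
    rw [← rpow_natCast, ← rpow_mul ha.le]; congr 1; push_cast; ring
  have e2 : (b ^ 2) ^ (r / 2) = b ^ r := by
    rw [← rpow_natCast, ← rpow_mul hb]; congr 1; push_cast; ring
  have e3 : (a ^ 2) ^ (r / 2 - 1) = a ^ (r - 2) := by
    rw [← rpow_natCast, ← rpow_mul ha.le]; congr 1; push_cast; ring
  have e4 : a ^ (r - 1) = a ^ (r - 2) * a := by
    rw [← rpow_add_one ha.ne']; congr 1; ring
  rw [e1, e2, e3] at h
  rw [e4]
  nlinarith

lemma lip_rpow {r R a b : ℝ} (hr : 1 < r) (ha : 0 ≤ a) (hb : 0 ≤ b) (haR : a ≤ R) (hbR : b ≤ R) :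
    |a ^ r - b ^ r| ≤ r * R ^ (r - 1) * |a - b| := by
  have key : ∀ a b : ℝ, 0 ≤ a → 0 ≤ b → a ≤ R → a ^ r - b ^ r ≤ r * R ^ (r - 1) * |a - b| := by
    intro a b ha hb haR
    have hR : 0 ≤ R := ha.trans haR
    rcases ha.eq_or_lt with rfl | ha
    · rw [zero_rpow (by linarith)]
      have := rpow_nonneg hb r
      have : 0 ≤ r * R ^ (r - 1) * |0 - b| := by positivity
      linarith
    · have h := tangent hr.le ha hb
      have h1 : a ^ (r - 1) ≤ R ^ (r - 1) := rpow_le_rpow ha.le haR (by linarith)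
      have h2 : a ^ (r - 1) * (a - b) ≤ R ^ (r - 1) * |a - b| :=
        (mul_le_mul_of_nonneg_left (le_abs_self _) (rpow_nonneg ha.le _)).trans
          (mul_le_mul_of_nonneg_right h1 (abs_nonneg _))
      nlinarith
  rw [abs_le]
  constructor
  · have := key b a hb ha hbR
    rw [abs_sub_comm] at this
    linarith
  · exact key a b ha hb haR

/-- the skew form -/
noncomputable def PP (p x y : ℝ) : ℝ := y * sp p x - x * sp p y

/-- the perturbation form -/
noncomputable def KK (p ρ x x' : ℝ) : ℝ :=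
  ρ * (|x| ^ p - |x'| ^ p) + sp p x * x' - sp p x' * x

/-- the pointwise inequality bounding the numerical radius of the perturbed operator -/
def CoreIneq (p M ρ C : ℝ) : Prop :=
  ∀ s x x' y : ℝ, PP p x y + PP p x' y + s * KK p ρ x x' ≤
    (M + C * s ^ 2) * (|x| ^ p + |x'| ^ p + 2 * |y| ^ p)

lemma abs_KK_le {p ρ : ℝ} (hp : 1 < p) (hρ : |ρ| ≤ 1) (x x' : ℝ) :
    |KK p ρ x x'| ≤ 3 * (|x| ^ p + |x'| ^ p) := by
  have h1 := abs_sp_mul_le hp x x'
  have h2 := abs_sp_mul_le hp x' x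
  have h3 := rpow_nonneg (abs_nonneg x) p
  have h4 := rpow_nonneg (abs_nonneg x') p
  have h5 : |ρ * (|x| ^ p - |x'| ^ p)| ≤ |x| ^ p + |x'| ^ p := by
    rw [abs_mul]
    have : |(|x| ^ p - |x'| ^ p)| ≤ |x| ^ p + |x'| ^ p := by rw [abs_le]; constructor <;> linarith
    nlinarith [abs_nonneg ρ, abs_nonneg (|x| ^ p - |x'| ^ p)]
  unfold KK
  rw [abs_le] at *
  constructor <;> linarith [h1.1, h1.2, h2.1, h2.2, h5.1, h5.2]

/-- existence of the maximiser with a quadratic gap -/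
lemma exists_tau {p : ℝ} (hp : 2 < p) : ∃ τ M κ : ℝ, 0 < τ ∧ τ < 1 ∧ 0 < M ∧ 0 < κ ∧
    M = (τ - τ ^ (p - 1)) / (1 + τ ^ p) ∧
    ∀ t, 0 ≤ t → κ * (t - τ) ^ 2 ≤ M * (1 + t ^ p) - t + t ^ (p - 1) := by
  let f : ℝ → ℝ := fun t => (t - t ^ (p - 1)) / (1 + t ^ p)
  have hden : ∀ t : ℝ, 0 ≤ t → 0 < 1 + t ^ p := fun t ht => by
    have := rpow_nonneg ht p; linarith
  have hcont : ContinuousOn f (Set.Icc 0 1) := by
    refine ContinuousOn.div (continuousOn_id.sub ?_) (continuousOn_const.add ?_)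
      (fun t ht => (hden t ht.1).ne')
    · exact (continuous_id.rpow_const fun _ => Or.inr (by linarith)).continuousOn
    · exact (continuous_id.rpow_const fun _ => Or.inr (by linarith)).continuousOn
  obtain ⟨τ, hτ, hmax⟩ := isCompact_Icc.exists_isMaxOn (Set.nonempty_Icc.2 zero_le_one) hcont
  have hhalf : 0 < f (1 / 2) := by
    refine div_pos ?_ (hden _ (by norm_num))
    have : (1 / 2 : ℝ) ^ (p - 1) < (1 / 2 : ℝ) ^ (1 : ℝ) :=
      rpow_lt_rpow_of_exponent_gt (by norm_num) (by norm_num) (by linarith)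
    rw [rpow_one] at this
    linarith
  have hM : 0 < f τ := hhalf.trans_le (hmax (by norm_num : (1 / 2 : ℝ) ∈ Set.Icc (0 : ℝ) 1))
  have hτ0 : 0 < τ := by
    rcases hτ.1.eq_or_lt with h | h
    · rw [← h] at hM
      simp [f, zero_rpow (by linarith : p - 1 ≠ 0)] at hM
    · exact h
  have hτ1 : τ < 1 := by
    rcases hτ.2.eq_or_lt with h | h
    · rw [h] at hM
      simp [f] at hM
    · exact h
  set M := f τ with hMdef
  let φ : ℝ → ℝ := fun t => M * (1 + t ^ p) - t + t ^ (p - 1)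
  have hφτ : φ τ = 0 := by
    have := (hden τ hτ.1).ne'
    simp only [φ, hMdef, f]
    field_simp
    ring
  have hloc : IsLocalMin φ τ := by
    filter_upwards [Icc_mem_nhds hτ0 hτ1] with t ht
    rw [hφτ]
    have h1 : f t ≤ M := hmax ht
    simp only [f] at h1
    rw [div_le_iff₀ (hden t ht.1)] at h1
    simp only [φ]
    linarith
  have hder : HasDerivAt φ (M * (p * τ ^ (p - 1)) - 1 + (p - 1) * τ ^ (p - 1 - 1)) τ := by
    refine (((hasDerivAt_rpow_const (Or.inl hτ0.ne')).const_add 1).const_mul M).sub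
      (hasDerivAt_id τ) |>.add (hasDerivAt_rpow_const (Or.inl hτ0.ne'))
  have hd0 := hloc.hasDerivAt_eq_zero hder
  refine ⟨τ, M, M * (p / 2 * τ ^ (p - 2)), hτ0, hτ1, hM, by positivity, rfl, fun t ht => ?_⟩
  have t1 := tangent2 hp.le hτ0 ht
  have t2 := tangent (r := p - 1) (by linarith) hτ0 ht
  have t3 := mul_le_mul_of_nonneg_left t1 hM.le
  simp only [φ] at hφτ
  have : (M * (p * τ ^ (p - 1)) - 1 + (p - 1) * τ ^ (p - 1 - 1)) * (t - τ) = 0 := by
    rw [hd0, zero_mul]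
  nlinarith

end Pool.Agent.H159Z.NI
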