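import Pool.Agent.H159Z.NI.Core

namespace Pool.Agent.H159Z.NI

open Real

/-- the defect at `y = 1` -/
noncomputable def dd (p M x : ℝ) : ℝ := M * (|x| ^ p + 1) - sp p x + x

lemma dichotomy {p τ M κ : ℝ} (hp : 2 < p) (h0 : 0 < τ) (h1 : τ < 1) (hM : 0 < M) (hκ : 0 < κ)
    (hφ : ∀ t, 0 ≤ t → κ * (t - τ) ^ 2 ≤ M * (1 + t ^ p) - t + t ^ (p - 1)) :
    ∃ κ₁ κ₂ L : ℝ, 0 < κ₁ ∧ 0 < κ₂ ∧ 0 ≤ L ∧ ∀ x : ℝ, κ₂ * (1 + |x| ^ p) ≤ dd p M x ∨
      ∃ a, (a = 1 / τ ∨ a = -τ) ∧ |x| ≤ 2 / τ ∧ κ₁ * (x - a) ^ 2 ≤ dd p M x ∧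
        |sp p x - sp p a| ≤ L * |x - a| ∧ |(|x| ^ p - |a| ^ p)| ≤ L * |x - a| := by
  have hp1 : 1 < p := by linarith
  set R := 2 / τ with hR
  have hR2 : 2 < R := by rw [hR, lt_div_iff₀ h0]; linarith
  have hiτ : 1 < 1 / τ := by rw [lt_div_iff₀ h0]; linarith
  have hiR : 1 / τ ≤ R := by rw [hR]; gcongr; norm_num
  have hL1 : 0 ≤ (p - 1) * R ^ (p - 1 - 1) := by
    have : 0 < p - 1 := by linarith
    positivity
  have hL2 : 0 ≤ p * R ^ (p - 1) := by positivity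
  -- positive side
  have hpos : ∀ x, 1 ≤ x → κ * τ ^ 2 * (x - 1 / τ) ^ 2 * x ^ (p - 2) ≤ dd p M x := by
    intro x hx
    have hx0 : 0 < x := by linarith
    have h := hφ (1 / x) (by positivity)
    have hxp := rpow_pos_of_pos hx0 p
    have e1 : (1 / x) ^ p = 1 / x ^ p := by rw [div_rpow zero_le_one hx0.le, one_rpow]
    have e2 : (1 / x) ^ (p - 1) = x / x ^ p := by
      rw [div_rpow zero_le_one hx0.le, one_rpow, rpow_sub_one hx0.ne']; field_simp
    have e3 : x ^ (p - 1) = x ^ p / x := rpow_sub_one hx0.ne' p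
    have e4 : x ^ (p - 2) = x ^ p / x ^ 2 := by
      rw [rpow_sub hx0, rpow_two]
    rw [e1, e2] at h
    unfold dd
    rw [sp_of_nonneg hp1 hx0.le, abs_of_pos hx0, e3, e4]
    have h' := mul_le_mul_of_nonneg_right h hxp.le
    have a1 : κ * (1 / x - τ) ^ 2 * x ^ p = κ * τ ^ 2 * (x - 1 / τ) ^ 2 * (x ^ p / x ^ 2) := by
      field_simp
      ring
    have a2 : (M * (1 + 1 / x ^ p) - 1 / x + x / x ^ p) * x ^ p =
        M * (x ^ p + 1) - x ^ p / x + x := by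
      field_simp
    rw [a1, a2] at h'
    exact h'
  refine ⟨κ * τ ^ 2, min M (κ * τ ^ 2 / 8), (p - 1) * R ^ (p - 1 - 1) + p * R ^ (p - 1),
    by positivity, by positivity, by positivity, fun x => ?_⟩
  have hmin1 : min M (κ * τ ^ 2 / 8) ≤ M := min_le_left _ _
  have hmin2 : min M (κ * τ ^ 2 / 8) ≤ κ * τ ^ 2 / 8 := min_le_right _ _
  have hxp := rpow_nonneg (abs_nonneg x) p
  rcases le_or_gt x 0 with hx | hx
  · obtain ⟨u, rfl⟩ : ∃ u, x = -u := ⟨-x, by ring⟩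
    have hu : 0 ≤ u := by linarith
    have hdd : dd p M (-u) = M * (1 + u ^ p) - u + u ^ (p - 1) := by
      unfold dd
      rw [sp_neg, sp_of_nonneg hp1 hu, abs_neg, abs_of_nonneg hu]
      ring
    rcases le_or_gt u 1 with hu1 | hu1
    · right
      refine ⟨-τ, Or.inr rfl, by rw [abs_neg, abs_of_nonneg hu]; linarith, ?_, ?_, ?_⟩
      · rw [hdd]
        have := hφ u hu
        have h2 : κ * τ ^ 2 * (-u - -τ) ^ 2 ≤ κ * (u - τ) ^ 2 := by
          have : τ ^ 2 ≤ 1 := by nlinarith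
          have e : (-u - -τ) ^ 2 = (u - τ) ^ 2 := by ring
          rw [e, mul_assoc]
          exact mul_le_mul_of_nonneg_left (by nlinarith [sq_nonneg (u - τ)]) hκ.le
        linarith
      · rw [sp_neg, sp_neg, sp_of_nonneg hp1 hu, sp_of_nonneg hp1 h0.le]
        have := lip_rpow (r := p - 1) (R := R) (by linarith) hu h0.le (by linarith) (by linarith)
        have e1 : |(-u ^ (p - 1) - -τ ^ (p - 1))| = |u ^ (p - 1) - τ ^ (p - 1)| := by
          rw [← abs_neg]; congr 1; ring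
        have e2 : |(-u - -τ)| = |u - τ| := by rw [← abs_neg]; congr 1; ring
        rw [e1, e2]
        nlinarith [abs_nonneg (u - τ)]
      · rw [abs_neg, abs_neg, abs_of_nonneg hu, abs_of_pos h0]
        have := lip_rpow (r := p) (R := R) hp1 hu h0.le (by linarith) (by linarith)
        have e2 : |(-u - -τ)| = |u - τ| := by rw [← abs_neg]; congr 1; ring
        rw [e2]
        nlinarith [abs_nonneg (u - τ)]
    · left
      rw [hdd, abs_neg, abs_of_nonneg hu]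
      have : u ^ (1 : ℝ) ≤ u ^ (p - 1) := rpow_le_rpow_of_exponent_le hu1.le (by linarith)
      rw [rpow_one] at this
      have h3 := rpow_nonneg hu p
      nlinarith
  · rcases le_or_gt x 1 with hx1 | hx1
    · left
      unfold dd
      rw [sp_of_nonneg hp1 hx.le]
      have : x ^ (p - 1) ≤ x ^ (1 : ℝ) := rpow_le_rpow_of_exponent_ge hx hx1 (by linarith)
      rw [rpow_one] at this
      nlinarith
    have hx2 : 1 ≤ x ^ (p - 2) := one_le_rpow hx1.le (by linarith)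
    rcases le_or_gt x R with hxR | hxR
    · right
      refine ⟨1 / τ, Or.inl rfl, by rw [abs_of_pos hx]; exact hxR, ?_, ?_, ?_⟩
      · have := hpos x hx1.le
        have h2 : 0 ≤ κ * τ ^ 2 * (x - 1 / τ) ^ 2 := by positivity
        nlinarith
      · rw [sp_of_nonneg hp1 hx.le, sp_of_nonneg hp1 (by positivity)]
        have := lip_rpow (r := p - 1) (R := R) (by linarith) hx.le (by positivity : 0 ≤ 1 / τ)
          hxR hiR
        nlinarith [abs_nonneg (x - 1 / τ)]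
      · rw [abs_of_pos hx, abs_of_pos (by positivity : 0 < 1 / τ)]
        have := lip_rpow (r := p) (R := R) hp1 hx.le (by positivity : 0 ≤ 1 / τ) hxR hiR
        nlinarith [abs_nonneg (x - 1 / τ)]
    · left
      have h2 := hpos x hx1.le
      rw [abs_of_pos hx]
      have e4 : x ^ p = x ^ (p - 2) * x ^ 2 := by
        rw [rpow_sub hx, rpow_two]; field_simp
      have h3 : 1 ≤ x ^ p := one_le_rpow hx1.le (by linarith)
      have h4 : x / 2 ≤ x - 1 / τ := by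
        have : 1 / τ = R / 2 := by rw [hR]; ring
        linarith
      have h5 : x ^ 2 / 4 ≤ (x - 1 / τ) ^ 2 := by nlinarith
      have h6 : κ * τ ^ 2 * (x ^ 2 / 4) * x ^ (p - 2) ≤
          κ * τ ^ 2 * (x - 1 / τ) ^ 2 * x ^ (p - 2) := by gcongr
      have h7 : κ * τ ^ 2 * (x ^ 2 / 4) * x ^ (p - 2) = κ * τ ^ 2 / 4 * x ^ p := by
        rw [e4]; ring
      have h8 : 0 < κ * τ ^ 2 := by positivity
      have h9 : min M (κ * τ ^ 2 / 8) * (1 + x ^ p) ≤ κ * τ ^ 2 / 8 * (1 + x ^ p) := by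
        gcongr
      nlinarith

lemma amgm {k s N c : ℝ} (hk : 0 < k) (hN : 0 ≤ N) : c * s * N ≤ k * N + c ^ 2 / (4 * k) * s ^ 2 * N := by
  have : c * s ≤ k + c ^ 2 / (4 * k) * s ^ 2 := by
    have e : k + c ^ 2 / (4 * k) * s ^ 2 - c * s = (2 * k - c * s) ^ 2 / (4 * k) := by
      field_simp; ring
    have : 0 ≤ (2 * k - c * s) ^ 2 / (4 * k) := by positivity
    linarith
  nlinarith

lemma core_one {p τ M κ ρ : ℝ} (hp : 2 < p) (h0 : 0 < τ) (h1 : τ < 1) (hM : 0 < M) (hκ : 0 < κ)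
    (hφ : ∀ t, 0 ≤ t → κ * (t - τ) ^ 2 ≤ M * (1 + t ^ p) - t + t ^ (p - 1))
    (hρ : |ρ| ≤ 1) (hK : KK p ρ (1 / τ) (-τ) = 0) :
    ∃ C : ℝ, 0 ≤ C ∧ ∀ s x x' : ℝ, s * KK p ρ x x' ≤
      dd p M x + dd p M x' + C * s ^ 2 * (|x| ^ p + |x'| ^ p + 2) := by
  have hp1 : 1 < p := by linarith
  obtain ⟨κ₁, κ₂, L, hκ₁, hκ₂, hL, hd⟩ := dichotomy hp h0 h1 hM hκ hφ
  set R := 2 / τ with hR
  have hR0 : 0 < R := by positivity
  have hKa : ∀ a a', (a = 1 / τ ∨ a = -τ) → (a' = 1 / τ ∨ a' = -τ) → KK p ρ a a' = 0 := by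
    have hanti : ∀ a a', KK p ρ a a' = -KK p ρ a' a := fun a a' => by unfold KK; ring
    rintro a a' (rfl | rfl) (rfl | rfl)
    · unfold KK; ring
    · exact hK
    · rw [hanti, hK, neg_zero]
    · unfold KK; ring
  have haR : ∀ a, (a = 1 / τ ∨ a = -τ) → |a| ≤ R := by
    rintro a (rfl | rfl)
    · rw [abs_of_pos (by positivity), hR]; gcongr; norm_num
    · rw [abs_neg, abs_of_pos h0, hR, le_div_iff₀ h0]; nlinarith
  have hdd0 : ∀ x, 0 ≤ dd p M x := by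
    intro x
    rcases hd x with h | ⟨a, -, -, h, -⟩
    · have := rpow_nonneg (abs_nonneg x) p
      exact le_trans (by positivity) h
    · exact le_trans (by positivity) h
  set B := R ^ p + 2 with hB
  have hRp : 0 < R ^ p := rpow_pos_of_pos hR0 p
  have hB2 : 2 ≤ B := by linarith
  set κ₃ := κ₂ / B with hκ₃
  have hκ₃0 : 0 < κ₃ := by positivity
  set L' := L + L * R + R ^ (p - 1) with hL'
  have hR1 : 0 < R ^ (p - 1) := rpow_pos_of_pos hR0 _
  -- the far case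
  have hfar : ∀ x x', κ₂ * (1 + |x| ^ p) ≤ dd p M x →
      κ₃ * (|x| ^ p + |x'| ^ p + 2) ≤ dd p M x + dd p M x' := by
    intro x x' hx
    have h3 := rpow_nonneg (abs_nonneg x) p
    have h4 := rpow_nonneg (abs_nonneg x') p
    rcases hd x' with h | ⟨a, -, h, -⟩
    · have : κ₃ ≤ κ₂ := by rw [hκ₃, div_le_iff₀ (by linarith)]; nlinarith
      nlinarith
    · have h5 : |x'| ^ p ≤ R ^ p := rpow_le_rpow (abs_nonneg _) h (by linarith)
      have h6 : |x| ^ p + |x'| ^ p + 2 ≤ B * (1 + |x| ^ p) := by nlinarith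
      have h7 : κ₃ * (B * (1 + |x| ^ p)) = κ₂ * (1 + |x| ^ p) := by
        rw [hκ₃]; field_simp
      have h8 := mul_le_mul_of_nonneg_left h6 hκ₃0.le
      linarith [hdd0 x']
  refine ⟨3 ^ 2 / (4 * κ₃) + L' ^ 2 / (4 * κ₁), by positivity, fun s x x' => ?_⟩
  have h3 := rpow_nonneg (abs_nonneg x) p
  have h4 := rpow_nonneg (abs_nonneg x') p
  set N := |x| ^ p + |x'| ^ p + 2 with hN
  have hN2 : 2 ≤ N := by linarith
  have hfar' : κ₃ * N ≤ dd p M x + dd p M x' →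
      s * KK p ρ x x' ≤ dd p M x + dd p M x' + (3 ^ 2 / (4 * κ₃) + L' ^ 2 / (4 * κ₁)) * s ^ 2 * N := by
    intro h
    have a1 : s * KK p ρ x x' ≤ 3 * |s| * N := by
      have b1 := abs_KK_le hp1 hρ x x'
      have b2 : s * KK p ρ x x' ≤ |s| * |KK p ρ x x'| := by
        rw [← abs_mul]; exact le_abs_self _
      nlinarith [abs_nonneg s]
    have a2 := amgm (c := 3) (s := |s|) hκ₃0 (by linarith : 0 ≤ N)
    rw [sq_abs] at a2
    have a3 : 0 ≤ L' ^ 2 / (4 * κ₁) * s ^ 2 * N := by positivity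
    nlinarith
  rcases hd x with hx | ⟨a, ha, hxR, hx1, hx2, hx3⟩
  · exact hfar' (hfar x x' hx)
  rcases hd x' with hx' | ⟨a', ha', hxR', hx1', hx2', hx3'⟩
  · refine hfar' ?_
    have := hfar x' x hx'
    rw [hN]
    linarith
  have hsa : ∀ a, (a = 1 / τ ∨ a = -τ) → |sp p a| ≤ R ^ (p - 1) := fun a ha => by
    rw [abs_sp hp1]
    exact rpow_le_rpow (abs_nonneg _) (haR a ha) (by linarith)
  have hKK : |KK p ρ x x'| ≤ L' * |x - a| + L' * |x' - a'| := by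
    have e : KK p ρ x x' = ρ * (|x| ^ p - |a| ^ p) - ρ * (|x'| ^ p - |a'| ^ p) +
        ((sp p x - sp p a) * x' + sp p a * (x' - a')) -
        ((sp p x' - sp p a') * x + sp p a' * (x - a)) + KK p ρ a a' := by
      unfold KK; ring
    rw [e, hKa a a' ha ha', add_zero]
    have b1 : |ρ * (|x| ^ p - |a| ^ p)| ≤ L * |x - a| := by
      rw [abs_mul]; nlinarith [abs_nonneg ρ, abs_nonneg (|x| ^ p - |a| ^ p)]
    have b2 : |ρ * (|x'| ^ p - |a'| ^ p)| ≤ L * |x' - a'| := by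
      rw [abs_mul]; nlinarith [abs_nonneg ρ, abs_nonneg (|x'| ^ p - |a'| ^ p)]
    have b3 : |(sp p x - sp p a) * x'| ≤ L * |x - a| * R := by
      rw [abs_mul]; gcongr
    have b4 : |sp p a * (x' - a')| ≤ R ^ (p - 1) * |x' - a'| := by
      rw [abs_mul]; gcongr; exact hsa a ha
    have b5 : |(sp p x' - sp p a') * x| ≤ L * |x' - a'| * R := by
      rw [abs_mul]; gcongr
    have b6 : |sp p a' * (x - a)| ≤ R ^ (p - 1) * |x - a| := by
      rw [abs_mul]; gcongr; exact hsa a' ha'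
    rw [abs_le] at b1 b2 b3 b4 b5 b6 ⊢
    rw [hL']
    constructor <;> nlinarith [b1.1, b1.2, b2.1, b2.2, b3.1, b3.2, b4.1, b4.2, b5.1, b5.2, b6.1, b6.2]
  have a0 : s * KK p ρ x x' ≤ |s| * |KK p ρ x x'| := by
    rw [← abs_mul]; exact le_abs_self _
  have a1 : |s| * |KK p ρ x x'| ≤ |s| * (L' * |x - a| + L' * |x' - a'|) :=
    mul_le_mul_of_nonneg_left hKK (abs_nonneg s)
  have am : ∀ e : ℝ, |s| * (L' * |e|) ≤ κ₁ * e ^ 2 + L' ^ 2 / (4 * κ₁) * s ^ 2 := by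
    intro e
    have h : κ₁ * e ^ 2 + L' ^ 2 / (4 * κ₁) * s ^ 2 - |s| * (L' * |e|) =
        (2 * κ₁ * |e| - L' * |s|) ^ 2 / (4 * κ₁) := by
      rw [← sq_abs e, ← sq_abs s]
      field_simp
      ring
    have : 0 ≤ (2 * κ₁ * |e| - L' * |s|) ^ 2 / (4 * κ₁) := by positivity
    linarith
  have a2 := am (x - a)
  have a3 := am (x' - a')
  have a4 : 0 ≤ L' ^ 2 / (4 * κ₁) * s ^ 2 := by positivity
  have a5 : 0 ≤ 3 ^ 2 / (4 * κ₃) * s ^ 2 * N := by positivity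
  nlinarith

lemma core_gt_two {p : ℝ} (hp : 2 < p) : ∃ τ M ρ C : ℝ, 0 < τ ∧ τ < 1 ∧ 0 < M ∧ |ρ| < 1 ∧ 0 ≤ C ∧
    M = (τ - τ ^ (p - 1)) / (1 + τ ^ p) ∧ CoreIneq p M ρ C := by
  have hp1 : 1 < p := by linarith
  obtain ⟨τ, M, κ, h0, h1, hM, hκ, hMτ, hφ⟩ := exists_tau hp
  set σ := τ ^ (p - 1) with hσ
  have hσ0 : 0 < σ := rpow_pos_of_pos h0 _
  have hσ1 : σ < 1 := rpow_lt_one h0.le h1 (by linarith)
  have hτp : τ ^ p = σ * τ := (rpow_pred_mul hp1 h0.le).symm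
  have hστ : σ * τ < 1 := by nlinarith
  have hden : 0 < 1 - (σ * τ) ^ 2 := by nlinarith [mul_pos hσ0 h0]
  set ρ := (τ ^ 2 - σ ^ 2) / (1 - (σ * τ) ^ 2) with hρ
  have hρ1 : |ρ| < 1 := by
    rw [abs_lt, hρ, lt_div_iff₀ hden, div_lt_iff₀ hden]
    constructor
    · have : 0 < (1 - σ ^ 2) * (1 + τ ^ 2) := mul_pos (by nlinarith) (by positivity)
      nlinarith
    · have : 0 < (1 - τ ^ 2) * (1 + σ ^ 2) := mul_pos (by nlinarith) (by positivity)
      nlinarith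
  have hK : KK p ρ (1 / τ) (-τ) = 0 := by
    unfold KK
    rw [sp_neg, sp_of_nonneg hp1 h0.le, sp_of_nonneg hp1 (by positivity), abs_neg, abs_of_pos h0,
      abs_of_pos (by positivity : 0 < 1 / τ), div_rpow zero_le_one h0.le, div_rpow zero_le_one h0.le,
      one_rpow, one_rpow, ← hσ, hτp]
    have hρ' : ρ * (1 - (σ * τ) ^ 2) = τ ^ 2 - σ ^ 2 := by
      rw [hρ, div_mul_cancel₀ _ hden.ne']
    have e : ρ * (1 / (σ * τ) - σ * τ) + 1 / σ * -τ - -σ * (1 / τ) =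
        (ρ * (1 - (σ * τ) ^ 2) - (τ ^ 2 - σ ^ 2)) / (σ * τ) := by
      field_simp
      ring
    rw [e, hρ', sub_self, zero_div]
  obtain ⟨C, hC, hcore⟩ := core_one hp h0 h1 hM hκ hφ hρ1.le hK
  refine ⟨τ, M, ρ, C + 3 ^ 2 / (4 * M), h0, h1, hM, hρ1, by positivity, hMτ, ?_⟩
  have hposy : ∀ s x x' y : ℝ, 0 < y → PP p x y + PP p x' y + s * KK p ρ x x' ≤
      (M + (C + 3 ^ 2 / (4 * M)) * s ^ 2) * (|x| ^ p + |x'| ^ p + 2 * |y| ^ p) := by
    intro s x x' y hy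
    obtain ⟨u, rfl⟩ : ∃ u, x = y * u := ⟨x / y, by field_simp⟩
    obtain ⟨u', rfl⟩ : ∃ u, x' = y * u := ⟨x' / y, by field_simp⟩
    have h := hcore s u u'
    have hyp := rpow_pos_of_pos hy p
    have e1 : y ^ (p - 1) * y = y ^ p := rpow_pred_mul hp1 hy.le
    have e2 : ∀ u, |y * u| ^ p = y ^ p * |u| ^ p := fun u => by
      rw [abs_mul, mul_rpow (abs_nonneg _) (abs_nonneg _), abs_of_pos hy]
    have e3 : ∀ u, PP p (y * u) y = y ^ p * (sp p u - u) := fun u => by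
      unfold PP
      rw [sp_mul hp1 hy.le, sp_of_nonneg hp1 hy.le, ← e1]; ring
    have e4 : KK p ρ (y * u) (y * u') = y ^ p * KK p ρ u u' := by
      unfold KK
      rw [e2, e2, sp_mul hp1 hy.le, sp_mul hp1 hy.le, ← e1]; ring
    rw [e3, e3, e4, e2, e2, abs_of_pos hy]
    unfold dd at h
    have h3 := rpow_nonneg (abs_nonneg u) p
    have h4 := rpow_nonneg (abs_nonneg u') p
    have h5 : 0 ≤ 3 ^ 2 / (4 * M) * s ^ 2 * (|u| ^ p + |u'| ^ p + 2) := by positivity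
    have h6 : sp p u - u + (sp p u' - u') + s * KK p ρ u u' ≤
        (M + (C + 3 ^ 2 / (4 * M)) * s ^ 2) * (|u| ^ p + |u'| ^ p + 2) := by nlinarith
    have := mul_le_mul_of_nonneg_left h6 hyp.le
    nlinarith
  intro s x x' y
  rcases lt_trichotomy y 0 with hy | rfl | hy
  · have h := hposy s (-x) (-x') (-y) (by linarith)
    have e1 : ∀ x, PP p (-x) (-y) = PP p x y := fun x => by unfold PP; rw [sp_neg, sp_neg]; ring
    have e2 : KK p ρ (-x) (-x') = KK p ρ x x' := by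
      unfold KK; rw [sp_neg, sp_neg, abs_neg, abs_neg]; ring
    rwa [e1, e1, e2, abs_neg, abs_neg, abs_neg] at h
  · have e1 : ∀ x, PP p x 0 = 0 := fun x => by simp [PP, sp]
    rw [e1, e1, abs_zero, zero_rpow (by linarith)]
    have h3 := rpow_nonneg (abs_nonneg x) p
    have h4 := rpow_nonneg (abs_nonneg x') p
    have b1 := abs_KK_le hp1 hρ1.le x x'
    have b2 : s * KK p ρ x x' ≤ |s| * |KK p ρ x x'| := by
      rw [← abs_mul]; exact le_abs_self _
    have a2 := amgm (c := 3) (s := |s|) hM (by linarith : 0 ≤ |x| ^ p + |x'| ^ p)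
    rw [sq_abs] at a2
    have a3 : 0 ≤ C * s ^ 2 * (|x| ^ p + |x'| ^ p) := by positivity
    nlinarith [abs_nonneg s]
  · exact hposy s x x' y hy

/-- the constant `M_p` -/
noncomputable def MpSet (p : ℝ) : Set ℝ :=
  (fun t : ℝ => |t ^ (p - 1) - t| / (1 + t ^ p)) '' Set.Icc 0 1

lemma core_all {p : ℝ} (hp : 1 < p) (hp2 : p ≠ 2) : ∃ M ρ C : ℝ, 0 < M ∧ |ρ| < 1 ∧ 0 ≤ C ∧
    M ∈ MpSet p ∧ CoreIneq p M ρ C := by
  rcases lt_or_gt_of_ne hp2 with h | h
  · set q := p / (p - 1) with hq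
    have hp0 : 0 < p - 1 := by linarith
    have hq2 : 2 < q := by rw [hq, lt_div_iff₀ hp0]; linarith
    have hq1 : 1 < q := by linarith
    have hpq : (p - 1) * (q - 1) = 1 := by rw [hq]; field_simp; ring
    have hpq' : (p - 1) * q = p := by rw [hq]; field_simp
    obtain ⟨τ, M, ρ, C, h0, h1, hM, hρ, hC, hMτ, hcore⟩ := core_gt_two hq2
    refine ⟨M, -ρ, C, hM, by rwa [abs_neg], hC, ⟨τ ^ (q - 1), ⟨by positivity,
      (rpow_lt_one h0.le h1 (by linarith)).le⟩, ?_⟩, ?_⟩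
    · have e1 : (τ ^ (q - 1)) ^ (p - 1) = τ := by
        rw [← rpow_mul h0.le, mul_comm, hpq, rpow_one]
      have e2 : (τ ^ (q - 1)) ^ p = τ ^ q := by
        rw [← rpow_mul h0.le]; congr 1; nlinarith
      simp only [e1, e2]
      have hd : 0 < 1 + τ ^ q := by have := rpow_nonneg h0.le q; linarith
      have : 0 < τ - τ ^ (q - 1) := by
        rw [hMτ] at hM
        exact (div_pos_iff_of_pos_right hd).1 hM
      rw [abs_of_pos this, hMτ]
    · have s1 : ∀ x, |sp p x| ^ q = |x| ^ p := fun x => by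
        rw [abs_sp hp, ← rpow_mul (abs_nonneg _), hpq']
      have s2' : ∀ x, 0 ≤ x → sp q (sp p x) = x := fun x hx => by
        rw [sp_of_nonneg hp hx, sp_of_nonneg hq1 (rpow_nonneg hx _), ← rpow_mul hx, hpq, rpow_one]
      have s2 : ∀ x, sp q (sp p x) = x := fun x => by
        rcases le_total 0 x with hx | hx
        · exact s2' x hx
        · have := s2' (-x) (by linarith)
          rw [sp_neg, sp_neg] at this
          linarith
      intro s x x' y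
      have h := hcore s (sp p x') (sp p x) (-sp p y)
      unfold PP KK at h ⊢
      rw [sp_neg, abs_neg, s1, s1, s1, s2, s2, s2] at h
      linarith
  · obtain ⟨τ, M, ρ, C, h0, h1, hM, hρ, hC, hMτ, hcore⟩ := core_gt_two h
    refine ⟨M, ρ, C, hM, hρ, hC, ⟨τ, ⟨h0.le, h1.le⟩, ?_⟩, hcore⟩
    have hd : 0 < 1 + τ ^ p := by have := rpow_nonneg h0.le p; linarith
    have : 0 < τ - τ ^ (p - 1) := by
      rw [hMτ] at hM
      exact (div_pos_iff_of_pos_right hd).1 hM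
    simp only
    rw [abs_sub_comm, abs_of_pos this, hMτ]

end Pool.Agent.H159Z.NI
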