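import Mathlib

/-!
Definitions for MP_95d40a_an: numerical radius, numerical index and the constant `M_p`.
-/

namespace Pool.Agent.H159Z.NI

universe u

/-- The numerical radius `v(T) = sup {|f (T x)| : ‖x‖ = 1, ‖f‖ = 1, f x = 1}` of a bounded
operator `T` on a normed space `X` over `𝕜`. -/
noncomputable def numRadius (𝕜 : Type) [RCLike 𝕜] {X : Type u} [NormedAddCommGroup X]
    [NormedSpace 𝕜 X] (T : X →L[𝕜] X) : ℝ :=
  sSup {r : ℝ | ∃ (x : X) (f : X →L[𝕜] 𝕜), ‖x‖ = 1 ∧ ‖f‖ = 1 ∧ f x = 1 ∧ r = ‖f (T x)‖}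

/-- The numerical index `n(X) = inf {v(T) : ‖T‖ = 1}` of a normed space `X` over `𝕜`. -/
noncomputable def numIndex (𝕜 : Type) [RCLike 𝕜] (X : Type u) [NormedAddCommGroup X]
    [NormedSpace 𝕜 X] : ℝ :=
  sInf {r : ℝ | ∃ T : X →L[𝕜] X, ‖T‖ = 1 ∧ r = numRadius 𝕜 T}

/-- The constant `M_p = max {|t ^ (p - 1) - t| / (1 + t ^ p) : 0 ≤ t ≤ 1}`. -/
noncomputable def Mp (p : ℝ) : ℝ :=
  sSup ((fun t : ℝ => |t ^ (p - 1) - t| / (1 + t ^ p)) '' Set.Icc 0 1)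

end Pool.Agent.H159Z.NI
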