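import Pool.Agent.H159Z.NI.Core
import Pool.Agent.H159Z.NI.Defs

namespace Pool.Agent.H159Z.NI

open Real MeasureTheory
open scoped ENNReal

universe u

section General

variable {𝕜 : Type} [RCLike 𝕜] {X : Type u} [NormedAddCommGroup X] [NormedSpace 𝕜 X]

lemma numRadius_nonneg (T : X →L[𝕜] X) : 0 ≤ numRadius 𝕜 T := by
  apply Real.sSup_nonneg
  rintro _ ⟨x, f, _, _, _, rfl⟩
  exact norm_nonneg _

lemma numIndex_le (T : X →L[𝕜] X) (c : ℝ) (hc : 0 ≤ c) (hT : 0 < ‖T‖)
    (h : ∀ (x : X) (f : X →L[𝕜] 𝕜), ‖x‖ = 1 → ‖f‖ = 1 → f x = 1 → ‖f (T x)‖ ≤ c) :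
    numIndex 𝕜 X ≤ c / ‖T‖ := by
  have hbdd : BddBelow {r : ℝ | ∃ T : X →L[𝕜] X, ‖T‖ = 1 ∧ r = numRadius 𝕜 T} := by
    refine ⟨0, ?_⟩
    rintro _ ⟨S, _, rfl⟩
    exact numRadius_nonneg S
  have hn : ‖((‖T‖⁻¹ : ℝ) : 𝕜)‖ = ‖T‖⁻¹ := by
    rw [RCLike.norm_ofReal, abs_of_pos (inv_pos.2 hT)]
  refine (csInf_le hbdd ⟨((‖T‖⁻¹ : ℝ) : 𝕜) • T, ?_, rfl⟩).trans ?_
  · rw [norm_smul, hn, inv_mul_cancel₀ hT.ne']
  · refine Real.sSup_le ?_ (div_nonneg hc hT.le)
    rintro _ ⟨x, f, hx, hf, hfx, rfl⟩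
    rw [smul_apply, map_smul, norm_smul, hn, div_eq_inv_mul]
    exact mul_le_mul_of_nonneg_left (h x f hx hf hfx) (inv_pos.2 hT).le

end General

variable {Ω : Type u} [MeasurableSpace Ω] {μ : Measure Ω} {P : ℝ≥0∞} [Fact (1 ≤ P)]

lemma P_ne_zero : P ≠ 0 := (zero_lt_one.trans_le (Fact.out : 1 ≤ P)).ne'

lemma integrable_rpow (hP : P ≠ ∞) (x : Lp ℝ P μ) :
    Integrable (fun a => |x a| ^ P.toReal) μ := by
  simpa using (Lp.memLp x).integrable_norm_rpow P_ne_zero hP

lemma norm_rpow_eq (hP : P ≠ ∞) (x : Lp ℝ P μ) :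
    ‖x‖ ^ P.toReal = ∫ a, |x a| ^ P.toReal ∂μ := by
  have hp : 0 < P.toReal := ENNReal.toReal_pos P_ne_zero hP
  have h0 : 0 ≤ ∫ a, |x a| ^ P.toReal ∂μ := integral_nonneg fun a => by positivity
  rw [Lp.norm_def, (Lp.memLp x).eLpNorm_eq_integral_rpow_norm P_ne_zero hP]
  simp only [Real.norm_eq_abs]
  rw [ENNReal.toReal_ofReal (by positivity), ← rpow_mul h0, inv_mul_cancel₀ hp.ne', rpow_one]

lemma measurable_sp (p : ℝ) : Measurable (sp p) := by
  unfold sp
  exact (continuous_abs.measurable.pow_const _).mul measurable_id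

/-- a norming functional on `L_p` is integration against the signed power -/
lemma norming (hP : P ≠ ∞) (hp : 1 < P.toReal) (x z : Lp ℝ P μ) (f : Lp ℝ P μ →L[ℝ] ℝ)
    (hx : ‖x‖ = 1) (hf : ‖f‖ = 1) (hfx : f x = 1) :
    f z = ∫ a, sp P.toReal (x a) * z a ∂μ := by
  set p := P.toReal with hpdef
  have hp0 : 0 < p := by linarith
  have hxm := (Lp.aestronglyMeasurable x).aemeasurable
  have hzm := (Lp.aestronglyMeasurable z).aemeasurable
  have hint : Integrable (fun a => (|x a| + |z a|) ^ p) μ := by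
    have h1 : MemLp (fun a => |x a| + |z a|) P μ := (Lp.memLp x).abs.add (Lp.memLp z).abs
    have h2 := h1.integrable_norm_rpow P_ne_zero hP
    refine h2.congr (ae_of_all _ fun a => ?_)
    simp only
    rw [Real.norm_eq_abs, abs_of_nonneg (by positivity)]
  have hder := hasDerivAt_integral_of_dominated_loc_of_deriv_le (μ := μ) (𝕜 := ℝ)
    (F := fun t a => |x a + t * z a| ^ p) (F' := fun t a => p * sp p (x a + t * z a) * z a)
    (x₀ := 0) (s := Metric.ball 0 1) (bound := fun a => p * (|x a| + |z a|) ^ p)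
    (Metric.ball_mem_nhds _ one_pos)
    (Filter.Eventually.of_forall fun t =>
      (((continuous_abs.measurable.comp_aemeasurable (hxm.add (hzm.const_mul t))).pow_const
        p).aestronglyMeasurable))
    (by simpa using integrable_rpow hP x)
    (((((measurable_sp p).comp_aemeasurable (hxm.add (hzm.const_mul 0))).const_mul p).mul
      hzm).aestronglyMeasurable)
    (ae_of_all _ fun a t ht => by
      rw [Real.norm_eq_abs, mul_assoc, abs_mul, abs_of_pos hp0, abs_mul, abs_sp hp]
      refine mul_le_mul_of_nonneg_left ?_ hp0.le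
      have ht1 : |t| ≤ 1 := by
        have := mem_ball_zero_iff.1 ht
        rw [Real.norm_eq_abs] at this
        exact this.le
      have h1 : |x a + t * z a| ≤ |x a| + |z a| := by
        refine (abs_add_le _ _).trans ?_
        rw [abs_mul]
        nlinarith [abs_nonneg (z a), abs_nonneg t]
      rw [← rpow_pred_mul hp (by positivity : 0 ≤ |x a| + |z a|)]
      refine mul_le_mul (rpow_le_rpow (abs_nonneg _) h1 (by linarith)) ?_ (abs_nonneg _)
        (by positivity)
      linarith [abs_nonneg (x a)])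
    (hint.const_mul p)
    (ae_of_all _ fun a t _ => by
      have h1 : HasDerivAt (fun t : ℝ => x a + t * z a) (z a) t := by
        simpa using ((hasDerivAt_id t).mul_const (z a)).const_add (x a)
      have h2 := (hasDerivAt_abs_rpow (x a + t * z a) hp).comp t h1
      have e : p * sp p (x a + t * z a) * z a =
          p * |x a + t * z a| ^ (p - 2) * (x a + t * z a) * z a := by
        unfold sp
        ring
      rw [e]
      exact h2)
  have hd1 := hder.2
  simp only [zero_mul, add_zero] at hd1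
  have hd2 : HasDerivAt (fun t : ℝ => (1 + t * f z) ^ p) (f z * p) 0 := by
    have h1 : HasDerivAt (fun t : ℝ => 1 + t * f z) (f z) 0 := by
      simpa using ((hasDerivAt_id (0 : ℝ)).mul_const (f z)).const_add 1
    have h2 := h1.rpow_const (p := p) (Or.inl (by simp))
    simpa using h2
  have hmin : IsLocalMin (fun t : ℝ => ∫ a, |x a + t * z a| ^ p ∂μ - (1 + t * f z) ^ p) 0 := by
    have hc : ∀ᶠ t : ℝ in nhds 0, 0 < 1 + t * f z := by
      have : Continuous fun t : ℝ => 1 + t * f z := by fun_prop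
      exact this.continuousAt.eventually (lt_mem_nhds (by simp))
    filter_upwards [hc] with t ht
    have e0 : ∫ a, |x a + 0 * z a| ^ p ∂μ - (1 + 0 * f z) ^ p = 0 := by
      simp only [zero_mul, add_zero, one_rpow]
      rw [← norm_rpow_eq hP, hx, one_rpow, sub_self]
    rw [e0]
    have e1 : ∫ a, |x a + t * z a| ^ p ∂μ = ‖x + t • z‖ ^ p := by
      rw [norm_rpow_eq hP]
      refine integral_congr_ae ?_
      filter_upwards [Lp.coeFn_add x (t • z), Lp.coeFn_smul t z] with a h1 h2
      rw [h1, Pi.add_apply, h2, Pi.smul_apply, smul_eq_mul]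
    have e2 : 1 + t * f z ≤ ‖x + t • z‖ := by
      have := f.le_opNorm (x + t • z)
      rw [hf, one_mul, map_add, map_smul, hfx, smul_eq_mul, Real.norm_eq_abs] at this
      exact (le_abs_self _).trans this
    rw [e1, sub_nonneg]
    exact rpow_le_rpow ht.le e2 hp0.le
  have h0 := hmin.hasDerivAt_eq_zero (hd1.sub hd2)
  have e : ∫ a, p * sp p (x a) * z a ∂μ = p * ∫ a, sp p (x a) * z a ∂μ := by
    rw [← integral_const_mul]
    simp only [mul_assoc]
  rw [e] at h0
  have : p * (f z - ∫ a, sp p (x a) * z a ∂μ) = 0 := by linarith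
  rcases mul_eq_zero.1 this with h | h
  · exact absurd h hp0.ne'
  · linarith

/-- integration over a set of finite measure as a functional on `L_p` -/
lemma exists_setInt {A : Set Ω} (hA : MeasurableSet A) (hμ : μ A ≠ ∞) :
    ∃ I : Lp ℝ P μ →L[ℝ] ℝ, ∀ x : Lp ℝ P μ, I x = ∫ a in A, x a ∂μ := by
  have : Fact (1 ≤ ENNReal.conjExponent P) :=
    ⟨ENNReal.HolderConjugate.one_le (ENNReal.conjExponent P) P⟩
  refine ⟨(ContinuousLinearMap.mul ℝ ℝ).lpPairing μ (ENNReal.conjExponent P) P
    (indicatorConstLp _ hA hμ (1 : ℝ)), fun x => ?_⟩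
  rw [ContinuousLinearMap.lpPairing_eq_integral, ← integral_indicator hA]
  refine integral_congr_ae ?_
  filter_upwards [indicatorConstLp_coeFn (p := ENNReal.conjExponent P) (hs := hA) (hμs := hμ)
    (c := (1 : ℝ))] with a ha
  rw [ha]
  by_cases h : a ∈ A <;> simp [h]

/-- multiplication by an indicator as an operator on `L_p` -/
lemma exists_mulInd {A : Set Ω} (hA : MeasurableSet A) :
    ∃ S : Lp ℝ P μ →L[ℝ] Lp ℝ P μ, ∀ x : Lp ℝ P μ, S x =ᵐ[μ] A.indicator x := by
  have hm : MemLp (A.indicator fun _ => (1 : ℝ)) ∞ μ :=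
    memLp_top_of_bound (aestronglyMeasurable_const.indicator hA) 1
      (ae_of_all _ fun a => by by_cases h : a ∈ A <;> simp [h])
  refine ⟨(ContinuousLinearMap.mul ℝ ℝ).holderL μ ∞ P P hm.toLp, fun x => ?_⟩
  rw [ContinuousLinearMap.holderL_apply_apply]
  filter_upwards [(ContinuousLinearMap.mul ℝ ℝ).coeFn_holder (r := P) hm.toLp x, hm.coeFn_toLp]
    with a h1 h2
  rw [h1, h2]
  by_cases h : a ∈ A <;> simp [h]

/-- points of the closed convex hull of the curve `(t, sp t, |t| ^ p)` -/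
def Hull (p m j n : ℝ) : Prop :=
  ∀ α β γ δ : ℝ, (∀ t, α * t + β * sp p t + γ * |t| ^ p + δ ≤ 0) → α * m + β * j + γ * n + δ ≤ 0

lemma Hull.neg {p m j n : ℝ} (h : Hull p m j n) : Hull p (-m) (-j) n := by
  intro α β γ δ H
  have := h (-α) (-β) γ δ fun t => by
    have := H (-t)
    rw [sp_neg, abs_neg] at this
    linarith
  linarith

lemma Hull.smul {p m j n c : ℝ} (hp : 1 < p) (hc : 0 ≤ c) (h : Hull p m j n) :
    Hull p (c * m) (c ^ (p - 1) * j) (c ^ p * n) := by
  intro α β γ δ H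
  have := h (α * c) (β * c ^ (p - 1)) (γ * c ^ p) δ fun t => by
    have := H (c * t)
    rw [sp_mul hp hc, abs_mul, mul_rpow (abs_nonneg _) (abs_nonneg _), abs_of_nonneg hc] at this
    linarith
  linarith

lemma integrableOn_coe {A : Set Ω} (hμ : μ A ≠ ∞) (x : Lp ℝ P μ) : IntegrableOn x A μ := by
  have : IsFiniteMeasure (μ.restrict A) := isFiniteMeasure_restrict.2 hμ
  exact ((Lp.memLp x).restrict A).integrable Fact.out

lemma integrableOn_sp (hP : P ≠ ∞) (hp : 1 < P.toReal) {A : Set Ω} (hμ : μ A ≠ ∞)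
    (x : Lp ℝ P μ) : IntegrableOn (fun a => sp P.toReal (x a)) A μ := by
  have : IsFiniteMeasure (μ.restrict A) := isFiniteMeasure_restrict.2 hμ
  refine Integrable.mono' (g := fun a => |x a| ^ P.toReal + 1)
    ((integrable_rpow hP x).integrableOn.add (integrable_const _))
    (((measurable_sp _).comp_aemeasurable
      (Lp.aestronglyMeasurable x).aemeasurable).aestronglyMeasurable.restrict)
    (ae_of_all _ fun a => ?_)
  have := abs_sp_mul_le hp (x a) 1
  simpa using this

lemma hull_mean (hP : P ≠ ∞) (hp : 1 < P.toReal) {A : Set Ω} (hμ : μ A ≠ ∞) (h0 : 0 < μ.real A)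
    (x : Lp ℝ P μ) :
    Hull P.toReal ((∫ a in A, x a ∂μ) / μ.real A) ((∫ a in A, sp P.toReal (x a) ∂μ) / μ.real A)
      ((∫ a in A, |x a| ^ P.toReal ∂μ) / μ.real A) := by
  have : IsFiniteMeasure (μ.restrict A) := isFiniteMeasure_restrict.2 hμ
  intro α β γ δ H
  have i1 := (integrableOn_coe hμ x).const_mul α
  have i2 := (integrableOn_sp hP hp hμ x).const_mul β
  have i3 := ((integrable_rpow hP x).integrableOn (s := A)).const_mul γ
  have h : ∫ a in A, (α * x a + β * sp P.toReal (x a) + γ * |x a| ^ P.toReal + δ) ∂μ ≤ 0 :=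
    integral_nonpos fun a => H (x a)
  have i12 : Integrable (fun a => α * x a + β * sp P.toReal (x a)) (μ.restrict A) := i1.add i2
  have i123 : Integrable (fun a => α * x a + β * sp P.toReal (x a) + γ * |x a| ^ P.toReal)
      (μ.restrict A) := i12.add i3
  rw [integral_add i123 (integrable_const _), integral_add i12 i3,
    integral_add i1 i2, integral_const_mul, integral_const_mul, integral_const_mul,
    setIntegral_const, smul_eq_mul] at h
  have e : ∀ u v w : ℝ, α * (u / μ.real A) + β * (v / μ.real A) + γ * (w / μ.real A) + δ =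
      (α * u + β * v + γ * w + μ.real A * δ) / μ.real A := fun u v w => by field_simp
  rw [e]
  exact div_nonpos_of_nonpos_of_nonneg h h0.le

end Pool.Agent.H159Z.NI
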