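import Pool.Agent.H159Z.NI.Core2
import Pool.Agent.H159Z.NI.Meas

namespace Pool.Agent.H159Z.NI

open Real MeasureTheory
open scoped ENNReal

universe u

lemma core_hull {p M ρ C : ℝ} (h : CoreIneq p M ρ C) (s : ℝ) {m1 j1 n1 m2 j2 n2 m3 j3 n3 : ℝ}
    (h1 : Hull p m1 j1 n1) (h2 : Hull p m2 j2 n2) (h3 : Hull p m3 j3 n3) :
    (m3 * j1 - m1 * j3) + (m3 * j2 - m2 * j3) + s * (ρ * (n1 - n2) + j1 * m2 - j2 * m1) ≤
      (M + C * s ^ 2) * (n1 + n2 + 2 * n3) := by
  set M' := M + C * s ^ 2 with hM'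
  have s1 : ∀ x x' : ℝ, (m3 * sp p x - x * j3) + (m3 * sp p x' - x' * j3) +
      s * (ρ * (|x| ^ p - |x'| ^ p) + sp p x * x' - sp p x' * x) ≤
      M' * (|x| ^ p + |x'| ^ p + 2 * n3) := by
    intro x x'
    have := h3 (sp p x + sp p x') (-x - x') (-2 * M')
      (s * (ρ * (|x| ^ p - |x'| ^ p) + sp p x * x' - sp p x' * x) - M' * (|x| ^ p + |x'| ^ p))
      fun t => by
        have := h s x x' t
        unfold PP KK at this
        linarith
    linarith
  have s2 : ∀ x : ℝ, (m3 * sp p x - x * j3) + (m3 * j2 - m2 * j3) +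
      s * (ρ * (|x| ^ p - n2) + sp p x * m2 - j2 * x) ≤ M' * (|x| ^ p + n2 + 2 * n3) := by
    intro x
    have := h2 (-j3 + s * sp p x) (m3 - s * x) (-s * ρ - M')
      (m3 * sp p x - x * j3 + s * ρ * |x| ^ p - M' * (|x| ^ p + 2 * n3))
      fun t => by
        have := s1 x t
        linarith
    linarith
  have := h1 (-j3 - s * j2) (m3 + s * m2) (s * ρ - M')
    (m3 * j2 - m2 * j3 - s * ρ * n2 - M' * (n2 + 2 * n3))
    fun t => by
      have := s2 t
      linarith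
  linarith

lemma core_total {p M ρ C : ℝ} (h : CoreIneq p M ρ C) (s : ℝ)
    {m1 j1 n1 m2 j2 n2 m3 j3 n3 w1 w2 : ℝ}
    (h1 : Hull p m1 j1 n1) (h2 : Hull p m2 j2 n2) (h3 : Hull p m3 j3 n3)
    (hw1 : 0 ≤ w1) (hw2 : 0 ≤ w2) (hw : w1 + w2 = 1) :
    |w1 * (m3 * j1 - m1 * j3) + w2 * (m3 * j2 - m2 * j3) +
      w1 * w2 * s * (ρ * (n1 - n2) + j1 * m2 - j2 * m1)| ≤
      (M + C * s ^ 2) * (w1 * n1 + w2 * n2 + n3) := by
  obtain rfl : w2 = 1 - w1 := by linarith
  have a11 := mul_le_mul_of_nonneg_left (core_hull h s h1 h1 h3) (mul_nonneg hw1 hw1)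
  have a22 := mul_le_mul_of_nonneg_left (core_hull h s h2 h2 h3) (mul_nonneg hw2 hw2)
  have a12 := mul_le_mul_of_nonneg_left (core_hull h s h1 h2 h3) (mul_nonneg hw1 hw2)
  have b11 := mul_le_mul_of_nonneg_left (core_hull h s h1 h1 h3.neg) (mul_nonneg hw1 hw1)
  have b22 := mul_le_mul_of_nonneg_left (core_hull h s h2 h2 h3.neg) (mul_nonneg hw2 hw2)
  have b21 := mul_le_mul_of_nonneg_left (core_hull h s h2 h1 h3.neg) (mul_nonneg hw1 hw2)
  rw [abs_le]
  constructor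
  · linarith
  · linarith

lemma exists_small {r c K : ℝ} (hr : 0 < r) (hc : 0 < c) :
    ∃ s : ℝ, 0 < s ∧ s ≤ 1 ∧ K * s ^ r < c := by
  have h1 : ContinuousAt (fun s : ℝ => K * s ^ r) 0 :=
    continuousAt_const.mul (continuousAt_rpow_const 0 r (Or.inr hr.le))
  have h2 : ∀ᶠ s : ℝ in nhds 0, K * s ^ r < c :=
    h1.eventually (gt_mem_nhds (by simp [zero_rpow hr.ne', hc]))
  have h3 : ∀ᶠ s : ℝ in nhds 0, s < 1 := gt_mem_nhds one_pos
  obtain ⟨s, hs, hs0⟩ := (((h2.and h3).filter_mono nhdsWithin_le_nhds).and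
    (self_mem_nhdsWithin (s := Set.Ioi (0 : ℝ)))).exists
  exact ⟨s, hs0, hs.2.le, hs.1⟩

lemma final_lt {p a1 a2 w1 w2 C' ρ E : ℝ} (hp : 1 < p) (h2 : p < 2) (a10 : 0 < a1) (a20 : 0 < a2)
    (w20 : 0 < w2) (hρ : -1 < ρ) (hE : E = a1 + a2) :
    ∃ s : ℝ, 0 < s ∧ s ≤ 1 ∧ (1 + C' * s ^ 2) * (a1 + a2) <
      a1 * |s * w2 * (1 + ρ)| ^ p + a2 * |0 - s * w1 * (1 + ρ)| ^ p + E := by
  have hρ0 : 0 < 1 + ρ := by linarith
  have c0 : 0 < a1 * (w2 * (1 + ρ)) ^ p := by positivity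
  obtain ⟨s, hs0, hs1, hs⟩ := exists_small (r := 2 - p) (K := C' * (a1 + a2)) (by linarith) c0
  refine ⟨s, hs0, hs1, ?_⟩
  have e1 : |s * w2 * (1 + ρ)| ^ p = s ^ p * (w2 * (1 + ρ)) ^ p := by
    rw [abs_of_pos (by positivity), mul_assoc, mul_rpow hs0.le (by positivity)]
  have e2 : s ^ 2 = s ^ (2 - p) * s ^ p := by
    rw [← rpow_add hs0, sub_add_cancel, rpow_two]
  have e3 : 0 ≤ a2 * |0 - s * w1 * (1 + ρ)| ^ p := by positivity
  have e4 := rpow_pos_of_pos hs0 p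
  have e5 := mul_lt_mul_of_pos_right hs e4
  rw [e1, e2, hE]
  linarith

lemma final_gt {p a a1 a2 w1 w2 C' ρ : ℝ} (h2 : 2 < p) (a0 : 0 < a)
    (w10 : 0 < w1) (w20 : 0 < w2) (hw : w1 + w2 = 1) (ea1 : a1 = a * w1) (ea2 : a2 = a * w2)
    (hρ : ρ < 1) (hC'0 : 0 ≤ C') :
    ∃ s D : ℝ, 0 < s ∧ s ≤ 1 ∧
      (1 + C' * s ^ 2) * (a1 * |(-(D * s * w2))| ^ p + a2 * |D * s * w1| ^ p + a) <
      a1 * |1 + s * w2 * (D * s * w1 + ρ * -(D * s * w2))| ^ p +
        a2 * |1 - s * w1 * (-(D * s * w2) + ρ * (D * s * w1))| ^ p := by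
  have hρ0 : 0 < 1 - ρ := by linarith
  have hp0 : 0 < p := by linarith
  have hp : 1 < p := by linarith
  have a10 : 0 < a1 := by rw [ea1]; positivity
  have a20 : 0 < a2 := by rw [ea2]; positivity
  obtain ⟨D, D0, hD'⟩ : ∃ D : ℝ, 0 < D ∧ p * w1 * w2 * (1 - ρ) * D = C' + 1 :=
    ⟨(C' + 1) / (p * w1 * w2 * (1 - ρ)), by positivity, by field_simp⟩
  obtain ⟨s, hs0, hs1, hs⟩ := exists_small (r := p - 2) (K := (1 + C') * D ^ p) (by linarith)
    one_pos
  refine ⟨s, D, hs0, hs1, ?_⟩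
  have hDs : 0 < D * s := by positivity
  have w11 : w1 ≤ 1 := by linarith
  have w21 : w2 ≤ 1 := by linarith
  have u1 : |(-(D * s * w2))| ^ p ≤ D ^ p * s ^ p := by
    rw [abs_neg, abs_of_pos (by positivity), ← mul_rpow D0.le hs0.le]
    exact rpow_le_rpow (by positivity) (mul_le_of_le_one_right hDs.le w21) hp0.le
  have u2 : |D * s * w1| ^ p ≤ D ^ p * s ^ p := by
    rw [abs_of_pos (by positivity), ← mul_rpow D0.le hs0.le]
    exact rpow_le_rpow (by positivity) (mul_le_of_le_one_right hDs.le w11) hp0.le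
  have v1 := mul_le_mul_of_nonneg_left
    (tangent_abs hp.le (1 + s * w2 * (D * s * w1 + ρ * -(D * s * w2)))) a10.le
  have v2 := mul_le_mul_of_nonneg_left
    (tangent_abs hp.le (1 - s * w1 * (-(D * s * w2) + ρ * (D * s * w1)))) a20.le
  have v4 : a1 * (1 + p * (1 + s * w2 * (D * s * w1 + ρ * -(D * s * w2)) - 1)) +
      a2 * (1 + p * (1 - s * w1 * (-(D * s * w2) + ρ * (D * s * w1)) - 1)) =
      a * (1 + (C' + 1) * s ^ 2) := by
    rw [← hD', ea1, ea2]
    obtain hw' : w2 = 1 - w1 := by linarith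
    rw [hw']
    ring
  have e2 : s ^ p = s ^ (p - 2) * s ^ 2 := by
    rw [← rpow_two, ← rpow_add hs0, sub_add_cancel]
  have hs2 : s ^ 2 ≤ 1 := pow_le_one₀ hs0.le hs1
  have hs2' : 0 < s ^ 2 := by positivity
  have ha : a = a1 + a2 := by rw [ea1, ea2, ← mul_add, hw, mul_one]
  have x1 : a1 * |(-(D * s * w2))| ^ p + a2 * |D * s * w1| ^ p + a ≤ a * (1 + D ^ p * s ^ p) := by
    have := mul_le_mul_of_nonneg_left u1 a10.le
    have := mul_le_mul_of_nonneg_left u2 a20.le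
    rw [ha]
    linarith
  have x2 : (1 + C' * s ^ 2) * (1 + D ^ p * s ^ p) < 1 + (C' + 1) * s ^ 2 := by
    have y1 : 0 ≤ D ^ p * s ^ p := by positivity
    have y2 : (1 + C' * s ^ 2) * (D ^ p * s ^ p) ≤ (1 + C') * (D ^ p * s ^ p) := by
      refine mul_le_mul_of_nonneg_right ?_ y1
      have := mul_le_mul_of_nonneg_left hs2 hC'0
      linarith
    have y3 := mul_lt_mul_of_pos_right hs hs2'
    rw [e2] at y2 ⊢
    linarith
  have x3 := mul_le_mul_of_nonneg_left x1 (by positivity : 0 ≤ 1 + C' * s ^ 2)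
  have x4 := mul_lt_mul_of_pos_left x2 a0
  linarith

lemma pow_bound {p c s : ℝ} (hp : 1 < p) (hc : 0 ≤ c) (hs0 : 0 < s) (hs1 : s ≤ 1) :
    (1 + c * s ^ 2) ^ p ≤ 1 + p * (1 + c) ^ (p - 1) * c * s ^ 2 := by
  have hs2 : s ^ 2 ≤ 1 := pow_le_one₀ hs0.le hs1
  have := lip_rpow (r := p) (R := 1 + c) (a := 1 + c * s ^ 2) (b := 1) hp
    (by positivity) zero_le_one (by have := mul_le_mul_of_nonneg_left hs2 hc; linarith)
    (by linarith)
  rw [one_rpow, add_sub_cancel_left, abs_of_nonneg (by positivity : 0 ≤ c * s ^ 2)] at this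
  have h2 := le_abs_self ((1 + c * s ^ 2) ^ p - 1)
  linarith

variable {Ω : Type u} [MeasurableSpace Ω] {μ : Measure Ω} {P : ℝ≥0∞} [Fact (1 ≤ P)]

/-- a function with three pieces -/
noncomputable def pc (A B Y : Set Ω) (f g h : Ω → ℝ) (a : Ω) : ℝ :=
  A.indicator f a + B.indicator g a + Y.indicator h a

section Pieces

variable {A B Y : Set Ω}

omit [MeasurableSpace Ω] in
lemma pc_map (hAB : Disjoint A B) (hAY : Disjoint A Y) (hBY : Disjoint B Y) (f g h : Ω → ℝ)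
    (G : Ω → ℝ → ℝ) (hG : ∀ a, G a 0 = 0) (a : Ω) :
    G a (pc A B Y f g h a) =
      pc A B Y (fun a => G a (f a)) (fun a => G a (g a)) (fun a => G a (h a)) a := by
  unfold pc
  by_cases h1 : a ∈ A
  · have h2 : a ∉ B := Set.disjoint_left.1 hAB h1
    have h3 : a ∉ Y := Set.disjoint_left.1 hAY h1
    simp [h1, h2, h3]
  by_cases h2 : a ∈ B
  · have h3 : a ∉ Y := Set.disjoint_left.1 hBY h2
    simp [h1, h2, h3]
  by_cases h3 : a ∈ Y <;> simp [h1, h2, h3, hG]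

lemma integral_pc (hA : MeasurableSet A) (hB : MeasurableSet B) (hY : MeasurableSet Y)
    {f g h : Ω → ℝ} (hf : IntegrableOn f A μ) (hg : IntegrableOn g B μ) (hh : IntegrableOn h Y μ) :
    ∫ a, pc A B Y f g h a ∂μ = ∫ a in A, f a ∂μ + ∫ a in B, g a ∂μ + ∫ a in Y, h a ∂μ := by
  have i1 := (integrable_indicator_iff hA).2 hf
  have i2 := (integrable_indicator_iff hB).2 hg
  have i3 := (integrable_indicator_iff hY).2 hh
  have i12 : Integrable (fun a => A.indicator f a + B.indicator g a) μ := i1.add i2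
  unfold pc
  rw [integral_add i12 i3, integral_add i1 i2, integral_indicator hA, integral_indicator hB,
    integral_indicator hY]

omit [Fact (1 ≤ P)] in
lemma exists_step (hA : MeasurableSet A) (hB : MeasurableSet B) (hY : MeasurableSet Y)
    (hμA : μ A ≠ ∞) (hμB : μ B ≠ ∞) (hμY : μ Y ≠ ∞) (u v w : ℝ) :
    ∃ z : Lp ℝ P μ, z =ᵐ[μ] pc A B Y (fun _ => u) (fun _ => v) (fun _ => w) := by
  have : MemLp (pc A B Y (fun _ => u) (fun _ => v) (fun _ => w)) P μ :=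
    ((memLp_indicator_const P hA u (Or.inr hμA)).add
      (memLp_indicator_const P hB v (Or.inr hμB))).add (memLp_indicator_const P hY w (Or.inr hμY))
  exact ⟨this.toLp, this.coeFn_toLp⟩

lemma exists_op (hA : MeasurableSet A) (hB : MeasurableSet B) (hY : MeasurableSet Y)
    (hμA : μ A ≠ ∞) (hμB : μ B ≠ ∞) (hμY : μ Y ≠ ∞) (c1 c2 c3 : Lp ℝ P μ →L[ℝ] ℝ) (r1 r2 : ℝ) :
    ∃ T : Lp ℝ P μ →L[ℝ] Lp ℝ P μ, ∀ x : Lp ℝ P μ, T x =ᵐ[μ]
      pc A B Y (fun a => c1 x + r1 * x a) (fun a => c2 x + r2 * x a) (fun _ => c3 x) := by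
  obtain ⟨S1, hS1⟩ := exists_mulInd (μ := μ) (P := P) hA
  obtain ⟨S2, hS2⟩ := exists_mulInd (μ := μ) (P := P) hB
  set e1 := indicatorConstLp P hA hμA (1 : ℝ)
  set e2 := indicatorConstLp P hB hμB (1 : ℝ)
  set e3 := indicatorConstLp P hY hμY (1 : ℝ)
  refine ⟨(c1.smulRight e1 + r1 • S1) + (c2.smulRight e2 + r2 • S2) + c3.smulRight e3, fun x => ?_⟩
  have e : ((c1.smulRight e1 + r1 • S1) + (c2.smulRight e2 + r2 • S2) + c3.smulRight e3) x =
      (c1 x • e1 + r1 • S1 x) + (c2 x • e2 + r2 • S2 x) + c3 x • e3 := rfl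
  rw [e]
  filter_upwards [Lp.coeFn_add ((c1 x • e1 + r1 • S1 x) + (c2 x • e2 + r2 • S2 x)) (c3 x • e3),
    Lp.coeFn_add (c1 x • e1 + r1 • S1 x) (c2 x • e2 + r2 • S2 x),
    Lp.coeFn_add (c1 x • e1) (r1 • S1 x), Lp.coeFn_add (c2 x • e2) (r2 • S2 x),
    Lp.coeFn_smul (c1 x) e1, Lp.coeFn_smul (c2 x) e2, Lp.coeFn_smul (c3 x) e3,
    Lp.coeFn_smul r1 (S1 x), Lp.coeFn_smul r2 (S2 x), hS1 x, hS2 x,
    indicatorConstLp_coeFn (p := P) (hs := hA) (hμs := hμA) (c := (1 : ℝ)),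
    indicatorConstLp_coeFn (p := P) (hs := hB) (hμs := hμB) (c := (1 : ℝ)),
    indicatorConstLp_coeFn (p := P) (hs := hY) (hμs := hμY) (c := (1 : ℝ))]
    with a h1 h2 h3 h4 h5 h6 h7 h8 h9 h10 h11 h12 h13 h14
  rw [h1, Pi.add_apply, h2, Pi.add_apply, h3, h4, Pi.add_apply, Pi.add_apply, h5, h6, h7, h8, h9]
  simp only [Pi.smul_apply, smul_eq_mul]
  rw [h10, h11, h12, h13, h14]
  unfold pc
  by_cases a1 : a ∈ A <;> by_cases a2 : a ∈ B <;> by_cases a3 : a ∈ Y <;> simp [a1, a2, a3]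

lemma step_norm (hP : P ≠ ∞) (hA : MeasurableSet A) (hB : MeasurableSet B) (hY : MeasurableSet Y)
    (hμA : μ A ≠ ∞) (hμB : μ B ≠ ∞) (hμY : μ Y ≠ ∞)
    (hAB : Disjoint A B) (hAY : Disjoint A Y) (hBY : Disjoint B Y) {u v w : ℝ} {z : Lp ℝ P μ}
    (hz : z =ᵐ[μ] pc A B Y (fun _ => u) (fun _ => v) (fun _ => w)) :
    ‖z‖ ^ P.toReal = μ.real A * |u| ^ P.toReal + μ.real B * |v| ^ P.toReal +
      μ.real Y * |w| ^ P.toReal := by
  have hp : 0 < P.toReal := ENNReal.toReal_pos P_ne_zero hP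
  rw [norm_rpow_eq hP]
  have : ∀ᵐ a ∂μ, |z a| ^ P.toReal = pc A B Y (fun _ => |u| ^ P.toReal) (fun _ => |v| ^ P.toReal)
      (fun _ => |w| ^ P.toReal) a := by
    filter_upwards [hz] with a ha
    rw [ha]
    exact pc_map hAB hAY hBY _ _ _ (fun _ t => |t| ^ P.toReal)
      (fun _ => by simp [zero_rpow hp.ne']) a
  rw [integral_congr_ae this, integral_pc hA hB hY (integrableOn_const hμA)
    (integrableOn_const hμB) (integrableOn_const hμY)]
  simp

omit [Fact (1 ≤ P)] in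
lemma step_int {S : Set Ω} (hS : MeasurableSet S) {z : Lp ℝ P μ} {F : Ω → ℝ} (hz : z =ᵐ[μ] F)
    {u : ℝ} (hF : ∀ a ∈ S, F a = u) : ∫ a in S, z a ∂μ = μ.real S * u := by
  rw [setIntegral_congr_ae hS (g := fun _ => u) (hz.mono fun a ha h => ha.trans (hF a h))]
  simp

lemma pieces_le (hA : MeasurableSet A) (hB : MeasurableSet B) (hY : MeasurableSet Y)
    (hAB : Disjoint A B) (hAY : Disjoint A Y) (hBY : Disjoint B Y) {F : Ω → ℝ}
    (k : Integrable F μ) (h0 : ∀ a, 0 ≤ F a) :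
    ∫ a in A, F a ∂μ + ∫ a in B, F a ∂μ + ∫ a in Y, F a ∂μ ≤ ∫ a, F a ∂μ := by
  rw [← setIntegral_union hAB hB k.integrableOn k.integrableOn,
    ← setIntegral_union (Set.disjoint_union_left.2 ⟨hAY, hBY⟩) hY k.integrableOn k.integrableOn]
  exact setIntegral_le_integral k (ae_of_all _ h0)

end Pieces

theorem real_index_lt (hP : P ≠ ∞) (hp : 1 < P.toReal) (hp2 : P.toReal ≠ 2) {A B Y : Set Ω}
    (hA : MeasurableSet A) (hB : MeasurableSet B) (hY : MeasurableSet Y)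
    (hμA : μ A ≠ ∞) (hμB : μ B ≠ ∞) (hμY : μ Y ≠ ∞)
    (h0A : μ A ≠ 0) (h0B : μ B ≠ 0) (h0Y : μ Y ≠ 0)
    (hAB : Disjoint A B) (hAY : Disjoint A Y) (hBY : Disjoint B Y) :
    numIndex ℝ (Lp ℝ P μ) < Mp P.toReal := by
  set p := P.toReal with hpdef
  have hp0 : 0 < p := by linarith
  obtain ⟨M, ρ, C, hM, hρ, hC, hMmem, hcore⟩ := core_all hp hp2
  have hMle : M ≤ Mp p := by
    refine le_csSup ⟨1, ?_⟩ hMmem
    rintro _ ⟨t, ht, rfl⟩
    have h1 := rpow_nonneg ht.1 p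
    have h2 := rpow_nonneg ht.1 (p - 1)
    have h3 : t ^ (p - 1) ≤ 1 := rpow_le_one ht.1 ht.2 (by linarith)
    simp only
    rw [div_le_one (by linarith), abs_le]
    constructor <;> linarith [ht.1, ht.2]
  refine lt_of_lt_of_le ?_ hMle
  set a1 := μ.real A with ha1
  set a2 := μ.real B with ha2
  set b := μ.real Y with hb
  have a10 : 0 < a1 := ENNReal.toReal_pos h0A hμA
  have a20 : 0 < a2 := ENNReal.toReal_pos h0B hμB
  have b0 : 0 < b := ENNReal.toReal_pos h0Y hμY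
  set a := a1 + a2 with ha
  have a0 : 0 < a := by positivity
  set w1 := a1 / a with hw1
  set w2 := a2 / a with hw2
  have w10 : 0 < w1 := by positivity
  have w20 : 0 < w2 := by positivity
  have hw : w1 + w2 = 1 := by rw [hw1, hw2]; field_simp; rfl
  have ea1 : a1 = a * w1 := by rw [hw1]; field_simp
  have ea2 : a2 = a * w2 := by rw [hw2]; field_simp
  set l := (b / a) ^ p⁻¹ with hl
  have l0 : 0 < l := by positivity
  have hlp : l ^ p = b / a := by rw [hl, rpow_inv_rpow (by positivity) hp0.ne']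
  have hlp1 : l ^ (p - 1) = b / a / l := by rw [rpow_sub_one l0.ne', hlp]
  obtain ⟨I1, hI1⟩ := exists_setInt (μ := μ) (P := P) hA hμA
  obtain ⟨I2, hI2⟩ := exists_setInt (μ := μ) (P := P) hB hμB
  obtain ⟨I3, hI3⟩ := exists_setInt (μ := μ) (P := P) hY hμY
  have hop := fun s : ℝ => exists_op hA hB hY hμA hμB hμY ((l / b) • I3 + (s / a) • I2)
    ((l / b) • I3 - (s / a) • I1) (-(1 / (l * a)) • (I1 + I2)) (s * ρ * w2) (-(s * ρ * w1))
  choose T hT using hop
  simp only [add_apply, sub_apply, smul_apply, smul_eq_mul] at hT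
  -- numerical radius
  have hrad : ∀ s (x : Lp ℝ P μ) (f : Lp ℝ P μ →L[ℝ] ℝ), ‖x‖ = 1 → ‖f‖ = 1 → f x = 1 →
      ‖f (T s x)‖ ≤ M + C * s ^ 2 := by
    intro s x f hx hf hfx
    rw [norming hP hp x _ f hx hf hfx, Real.norm_eq_abs]
    have hG : ∀ c r : ℝ, (fun a => sp p (x a) * (c + r * x a)) =
        fun a => c * sp p (x a) + r * |x a| ^ p := fun c r => by
      funext a
      rw [← sp_mul_self hp]
      ring
    have e1 : ∀ᵐ ω ∂μ, sp p (x ω) * T s x ω = pc A B Y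
        (fun ω => (l / b * I3 x + s / a * I2 x) * sp p (x ω) + (s * ρ * w2) * |x ω| ^ p)
        (fun ω => (l / b * I3 x - s / a * I1 x) * sp p (x ω) + (-(s * ρ * w1)) * |x ω| ^ p)
        (fun ω => (-(1 / (l * a)) * (I1 x + I2 x)) * sp p (x ω)) ω := by
      filter_upwards [hT s x] with ω hω
      rw [hω, pc_map hAB hAY hBY _ _ _ (fun ω t => sp p (x ω) * t) (fun _ => mul_zero _) ω, hG, hG]
      simp only [mul_comm]
    have j1 := integrableOn_sp hP hp hμA x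
    have j2 := integrableOn_sp hP hp hμB x
    have j3 := integrableOn_sp hP hp hμY x
    have k := integrable_rpow hP x
    have q1 : ∀ c r : ℝ, IntegrableOn (fun ω => c * sp p (x ω) + r * |x ω| ^ p) A μ :=
      fun c r => (j1.const_mul _).add (k.integrableOn.const_mul _)
    have q2 : ∀ c r : ℝ, IntegrableOn (fun ω => c * sp p (x ω) + r * |x ω| ^ p) B μ :=
      fun c r => (j2.const_mul _).add (k.integrableOn.const_mul _)
    have q3 : ∀ c : ℝ, IntegrableOn (fun ω => c * sp p (x ω)) Y μ := fun c => j3.const_mul _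
    rw [integral_congr_ae e1, integral_pc hA hB hY (q1 _ _) (q2 _ _) (q3 _),
      integral_add (j1.const_mul _) (k.integrableOn.const_mul _),
      integral_add (j2.const_mul _) (k.integrableOn.const_mul _)]
    simp only [integral_const_mul]
    have H := core_total hcore s (hull_mean hP hp hμA a10 x) (hull_mean hP hp hμB a20 x)
      ((hull_mean hP hp hμY b0 x).smul hp l0.le) w10.le w20.le hw
    rw [← hI1, ← hI2, ← hI3, hlp, hlp1] at H
    have hN := pieces_le hA hB hY hAB hAY hBY k (fun a => by positivity)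
    rw [← norm_rpow_eq hP, hx, one_rpow] at hN
    rw [← hpdef] at hN H ⊢
    rw [← ha1, ← ha2, ← hb] at H
    generalize ∫ a in A, sp p (x a) ∂μ = J1 at *
    generalize ∫ a in B, sp p (x a) ∂μ = J2 at *
    generalize ∫ a in Y, sp p (x a) ∂μ = J3 at *
    generalize ∫ a in A, |x a| ^ p ∂μ = N1 at *
    generalize ∫ a in B, |x a| ^ p ∂μ = N2 at *
    generalize ∫ a in Y, |x a| ^ p ∂μ = N3 at *
    have H2 := mul_le_mul_of_nonneg_left H a0.le
    rw [← abs_of_pos a0, ← abs_mul, abs_of_pos a0] at H2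
    have hM' : 0 ≤ M + C * s ^ 2 := by positivity
    have e2 : a * ((M + C * s ^ 2) * (w1 * (N1 / a1) + w2 * (N2 / a2) + b / a * (N3 / b))) =
        (M + C * s ^ 2) * (N1 + N2 + N3) := by
      rw [hw1, hw2]; field_simp
    rw [e2] at H2
    refine le_trans (le_of_eq ?_) (H2.trans (mul_le_of_le_one_right hM' hN))
    congr 1
    rw [hw1, hw2]
    field_simp
    ring
  -- reduction to a test vector
  set C' := p * (1 + C / M) ^ (p - 1) * (C / M) with hC'
  have hC'0 : 0 ≤ C' := by positivity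
  have hred : ∀ (s : ℝ) (z : Lp ℝ P μ), 0 < s → s ≤ 1 →
      (1 + C' * s ^ 2) * ‖z‖ ^ p < ‖T s z‖ ^ p → numIndex ℝ (Lp ℝ P μ) < M := by
    intro s z hs0 hs1 hz
    have hCM : 0 ≤ C / M := by positivity
    have h1 : (1 + C / M * s ^ 2) ^ p ≤ 1 + C' * s ^ 2 := pow_bound hp hCM hs0 hs1
    have h2 : 1 + C / M * s ^ 2 < ‖T s‖ := by
      by_contra hcon
      push Not at hcon
      have h3 : ‖T s z‖ ≤ (1 + C / M * s ^ 2) * ‖z‖ :=
        ((T s).le_opNorm z).trans (mul_le_mul_of_nonneg_right hcon (norm_nonneg _))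
      have h4 := rpow_le_rpow (norm_nonneg _) h3 hp0.le
      rw [mul_rpow (by positivity) (norm_nonneg _)] at h4
      have h5 := mul_le_mul_of_nonneg_right h1 (rpow_nonneg (norm_nonneg z) p)
      linarith
    have hT0 : 0 < ‖T s‖ := lt_trans (by positivity) h2
    refine (numIndex_le (T s) _ (by positivity) hT0 (hrad s)).trans_lt ?_
    rw [div_lt_iff₀ hT0]
    have : M * (1 + C / M * s ^ 2) = M + C * s ^ 2 := by field_simp
    rw [← this]
    exact mul_lt_mul_of_pos_left h2 hM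
  -- action on step functions
  have hstep : ∀ (s u v w : ℝ), ∃ z : Lp ℝ P μ,
      ‖z‖ ^ p = a1 * |u| ^ p + a2 * |v| ^ p + b * |w| ^ p ∧
      ‖T s z‖ ^ p = a1 * |l * w + s * w2 * (v + ρ * u)| ^ p +
        a2 * |l * w - s * w1 * (u + ρ * v)| ^ p + b * |(w1 * u + w2 * v) / l| ^ p := by
    intro s u v w
    obtain ⟨z, hz⟩ := exists_step (P := P) hA hB hY hμA hμB hμY u v w
    have hpA : ∀ ω ∈ A, pc A B Y (fun _ => u) (fun _ => v) (fun _ => w) ω = u := fun ω h => by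
      simp [pc, h, Set.disjoint_left.1 hAB h, Set.disjoint_left.1 hAY h]
    have hpB : ∀ ω ∈ B, pc A B Y (fun _ => u) (fun _ => v) (fun _ => w) ω = v := fun ω h => by
      simp [pc, h, Set.disjoint_right.1 hAB h, Set.disjoint_left.1 hBY h]
    have hpY : ∀ ω ∈ Y, pc A B Y (fun _ => u) (fun _ => v) (fun _ => w) ω = w := fun ω h => by
      simp [pc, h, Set.disjoint_right.1 hAY h, Set.disjoint_right.1 hBY h]
    have i1 : I1 z = a1 * u := by rw [hI1, step_int hA hz hpA]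
    have i2 : I2 z = a2 * v := by rw [hI2, step_int hB hz hpB]
    have i3 : I3 z = b * w := by rw [hI3, step_int hY hz hpY]
    refine ⟨z, step_norm hP hA hB hY hμA hμB hμY hAB hAY hBY hz, ?_⟩
    have hTz : T s z =ᵐ[μ] pc A B Y (fun _ => l * w + s * w2 * (v + ρ * u))
        (fun _ => l * w - s * w1 * (u + ρ * v)) (fun _ => -((w1 * u + w2 * v) / l)) := by
      filter_upwards [hT s z, hz] with ω h1 h2
      rw [h1, i1, i2, i3]
      unfold pc
      congr 1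
      · congr 1
        · by_cases hω : ω ∈ A
          · rw [Set.indicator_of_mem hω, Set.indicator_of_mem hω, h2, hpA ω hω, hw2]
            field_simp
            ring
          · rw [Set.indicator_of_notMem hω, Set.indicator_of_notMem hω]
        · by_cases hω : ω ∈ B
          · rw [Set.indicator_of_mem hω, Set.indicator_of_mem hω, h2, hpB ω hω, hw1]
            field_simp
            ring
          · rw [Set.indicator_of_notMem hω, Set.indicator_of_notMem hω]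
      · congr 1
        funext _
        rw [hw1, hw2]
        field_simp
    rw [step_norm hP hA hB hY hμA hμB hμY hAB hAY hBY hTz, abs_neg]
  have hρ1 := abs_lt.1 hρ
  have hlinv : b * |1 / l| ^ p = a := by
    rw [abs_of_pos (by positivity), div_rpow zero_le_one l0.le, one_rpow, hlp]
    field_simp
  rcases lt_or_gt_of_ne hp2 with h2 | h2
  · obtain ⟨s, hs0, hs1, hs⟩ := final_lt (w1 := w1) (C' := C') hp h2 a10 a20 w20 hρ1.1 ha
    obtain ⟨z, hz1, hz2⟩ := hstep s 1 1 0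
    refine hred s z hs0 hs1 ?_
    rw [hz1, hz2]
    simp only [mul_one, mul_zero, zero_add, abs_one, one_rpow, abs_zero, zero_rpow hp0.ne',
      add_zero, hw, hlinv]
    exact hs
  · obtain ⟨s, D, hs0, hs1, hs⟩ := final_gt h2 a0 w10 w20 hw ea1 ea2 hρ1.2 hC'0
    obtain ⟨z, hz1, hz2⟩ := hstep s (-(D * s * w2)) (D * s * w1) (1 / l)
    refine hred s z hs0 hs1 ?_
    rw [hz1, hz2, hlinv, mul_one_div_cancel l0.ne']
    have v3 : 0 ≤ b * |(w1 * -(D * s * w2) + w2 * (D * s * w1)) / l| ^ p := by positivity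
    exact hs.trans_le (le_add_of_nonneg_right v3)

end Pool.Agent.H159Z.NI
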