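import Mathlib

namespace Pool.Agent.H159Z.NI

open MeasureTheory
open scoped ENNReal

universe u

variable {Ω : Type u} [MeasurableSpace Ω] {μ : Measure Ω} {P : ℝ≥0∞} [Fact (1 ≤ P)]
variable {𝕜 : Type} [RCLike 𝕜]

lemma rank_le_two (hP : P ≠ ∞) {A B : Set Ω} (hA : MeasurableSet A) (hB : MeasurableSet B)
    (hμA : μ A ≠ ∞) (hμB : μ B ≠ ∞) (hAB : Disjoint A B)
    (atA : ∀ S, MeasurableSet S → μ (A ∩ S) = 0 ∨ μ (A \ S) = 0)
    (atB : ∀ S, MeasurableSet S → μ (B ∩ S) = 0 ∨ μ (B \ S) = 0)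
    (cov : ∀ S, MeasurableSet S → μ S ≠ ∞ → μ (S \ (A ∪ B)) = 0) :
    Module.rank 𝕜 (Lp 𝕜 P μ) ≤ 2 := by
  classical
  set e1 := indicatorConstLp P hA hμA (1 : 𝕜) with he1
  set e2 := indicatorConstLp P hB hμB (1 : 𝕜) with he2
  let W : Submodule 𝕜 (Lp 𝕜 P μ) := Submodule.span 𝕜 (({e1, e2} : Finset (Lp 𝕜 P μ)) : Set _)
  have hW : ∀ f, f ∈ W := by
    refine Lp.induction hP (fun f => f ∈ W) ?_ (fun f g hf hg _ h1 h2 => W.add_mem h1 h2)
      W.closed_of_finiteDimensional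
    intro c S hS hμS
    have key : ∀ {A : Set Ω}, (μ (A ∩ S) = 0 ∨ μ (A \ S) = 0) →
        ∃ α : 𝕜, ∀ᵐ ω ∂μ, ω ∈ A → S.indicator (fun _ => c) ω = α := by
      rintro A (h | h)
      · refine ⟨0, ?_⟩
        filter_upwards [measure_eq_zero_iff_ae_notMem.1 h] with ω h1 h2
        exact Set.indicator_of_notMem (fun h3 => h1 ⟨h2, h3⟩) _
      · refine ⟨c, ?_⟩
        filter_upwards [measure_eq_zero_iff_ae_notMem.1 h] with ω h1 h2
        exact Set.indicator_of_mem (by_contra fun h3 => h1 ⟨h2, h3⟩) _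
    obtain ⟨α, hα⟩ := key (atA S hS)
    obtain ⟨β, hβ⟩ := key (atB S hS)
    have e : (Lp.simpleFunc.indicatorConst P hS hμS.ne c : Lp 𝕜 P μ) = α • e1 + β • e2 := by
      rw [Lp.simpleFunc.coe_indicatorConst]
      ext1
      filter_upwards [hα, hβ, measure_eq_zero_iff_ae_notMem.1 (cov S hS hμS.ne),
        indicatorConstLp_coeFn (p := P) (hs := hS) (hμs := hμS.ne) (c := c),
        indicatorConstLp_coeFn (p := P) (hs := hA) (hμs := hμA) (c := (1 : 𝕜)),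
        indicatorConstLp_coeFn (p := P) (hs := hB) (hμs := hμB) (c := (1 : 𝕜)),
        Lp.coeFn_add (α • e1) (β • e2), Lp.coeFn_smul α e1, Lp.coeFn_smul β e2]
        with ω h1 h2 h3 h4 h5 h6 h7 h8 h9
      rw [h4, h7, Pi.add_apply, h8, h9, Pi.smul_apply, Pi.smul_apply, h5, h6]
      by_cases a1 : ω ∈ A
      · have a2 : ω ∉ B := Set.disjoint_left.1 hAB a1
        rw [h1 a1]; simp [a1, a2]
      by_cases a2 : ω ∈ B
      · rw [h2 a2]; simp [a1, a2]
      · have a3 : ω ∉ S := fun h => h3 ⟨h, fun h' => h'.elim a1 a2⟩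
        simp [a1, a2, a3]
    rw [e]
    exact W.add_mem (W.smul_mem _ (Submodule.subset_span (by simp)))
      (W.smul_mem _ (Submodule.subset_span (by simp)))
  have htop : W = ⊤ := Submodule.eq_top_iff'.2 hW
  rw [← rank_top, ← htop]
  refine (rank_span_finset_le _).trans ?_
  exact_mod_cast Finset.card_le_two

lemma three_sets (hP : P ≠ ∞) (h : 3 ≤ Module.rank 𝕜 (Lp 𝕜 P μ)) :
    ∃ A B Y : Set Ω, MeasurableSet A ∧ MeasurableSet B ∧ MeasurableSet Y ∧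
      μ A ≠ ∞ ∧ μ B ≠ ∞ ∧ μ Y ≠ ∞ ∧ μ A ≠ 0 ∧ μ B ≠ 0 ∧ μ Y ≠ 0 ∧
      Disjoint A B ∧ Disjoint A Y ∧ Disjoint B Y := by
  by_contra hcon
  have hfin : ∀ {S T : Set Ω}, S ⊆ T → μ T ≠ ∞ → μ S ≠ ∞ := fun h1 h2 =>
    ne_top_of_le_ne_top h2 (measure_mono h1)
  suffices H : Module.rank 𝕜 (Lp 𝕜 P μ) ≤ 2 by
    have := h.trans H
    norm_num at this
  by_cases h2 : ∃ A B : Set Ω, MeasurableSet A ∧ MeasurableSet B ∧ μ A ≠ ∞ ∧ μ B ≠ ∞ ∧
      μ A ≠ 0 ∧ μ B ≠ 0 ∧ Disjoint A B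
  · obtain ⟨A, B, hA, hB, hμA, hμB, h0A, h0B, hAB⟩ := h2
    refine rank_le_two hP hA hB hμA hμB hAB (fun S hS => ?_) (fun S hS => ?_) (fun S hS hμS => ?_)
    · by_contra hc
      push Not at hc
      exact hcon ⟨A ∩ S, A \ S, B, hA.inter hS, hA.diff hS, hB, hfin Set.inter_subset_left hμA,
        hfin Set.sdiff_subset hμA, hμB, hc.1, hc.2, h0B,
        Set.disjoint_left.2 fun _ a b => b.2 a.2, hAB.mono_left Set.inter_subset_left,
        hAB.mono_left Set.sdiff_subset⟩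
    · by_contra hc
      push Not at hc
      exact hcon ⟨B ∩ S, B \ S, A, hB.inter hS, hB.diff hS, hA, hfin Set.inter_subset_left hμB,
        hfin Set.sdiff_subset hμB, hμA, hc.1, hc.2, h0A,
        Set.disjoint_left.2 fun _ a b => b.2 a.2, hAB.symm.mono_left Set.inter_subset_left,
        hAB.symm.mono_left Set.sdiff_subset⟩
    · by_contra hc
      exact hcon ⟨A, B, S \ (A ∪ B), hA, hB, hS.diff (hA.union hB), hμA, hμB,
        hfin Set.sdiff_subset hμS, h0A, h0B, hc, hAB,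
        Set.disjoint_left.2 fun _ a b => b.2 (Or.inl a),
        Set.disjoint_left.2 fun _ a b => b.2 (Or.inr a)⟩
  by_cases h1 : ∃ A : Set Ω, MeasurableSet A ∧ μ A ≠ ∞ ∧ μ A ≠ 0
  · obtain ⟨A, hA, hμA, h0A⟩ := h1
    refine rank_le_two hP hA MeasurableSet.empty hμA (by simp) (by simp) (fun S hS => ?_)
      (fun S _ => by simp) (fun S hS hμS => ?_)
    · by_contra hc
      push Not at hc
      exact h2 ⟨A ∩ S, A \ S, hA.inter hS, hA.diff hS, hfin Set.inter_subset_left hμA,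
        hfin Set.sdiff_subset hμA, hc.1, hc.2, Set.disjoint_left.2 fun _ a b => b.2 a.2⟩
    · by_contra hc
      exact h2 ⟨A, S \ (A ∪ ∅), hA, hS.diff (hA.union MeasurableSet.empty), hμA,
        hfin Set.sdiff_subset hμS, h0A, hc, Set.disjoint_left.2 fun _ a b => b.2 (Or.inl a)⟩
  · refine rank_le_two hP MeasurableSet.empty MeasurableSet.empty (by simp) (by simp) (by simp)
      (fun S _ => by simp) (fun S _ => by simp) (fun S hS hμS => ?_)
    by_contra hc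
    exact h1 ⟨S, hS, hμS, by simpa using hc⟩

end Pool.Agent.H159Z.NI
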